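import Mathlib

set_option autoImplicit false
open MeasureTheory Set
open scoped ENNReal

namespace Pool.Agent.Helper43.Hilbert

/-- Gamma integral as a lower Lebesgue integral. -/
lemma lintegral_gamma {a r : ℝ} (ha : 0 < a) (hr : 0 < r) :
    ∫⁻ t in Ioi (0 : ℝ), ENNReal.ofReal (t ^ (a - 1) * Real.exp (-(r * t))) =
      ENNReal.ofReal ((1 / r) ^ a * Real.Gamma a) := by
  rw [← Real.integral_rpow_mul_exp_neg_mul_Ioi ha hr]
  rw [ofReal_integral_eq_lintegral_ofReal]
  · by_contra hni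
    have h1 := integral_undef hni
    rw [Real.integral_rpow_mul_exp_neg_mul_Ioi ha hr] at h1
    have h2 : 0 < (1 / r) ^ a * Real.Gamma a :=
      mul_pos (Real.rpow_pos_of_pos (by positivity) _) (Real.Gamma_pos_of_pos ha)
    linarith
  · refine (ae_restrict_iff' measurableSet_Ioi).mpr (Filter.Eventually.of_forall ?_)
    intro t ht
    have : (0 : ℝ) < t := ht
    simp only [Pi.zero_apply]
    positivity

lemma lintegral_beta {s : ℝ} (hs0 : 0 < s) (hs1 : s < 1) :
    ∫⁻ u in Ioi (0 : ℝ), ENNReal.ofReal (u ^ (s - 1) / (1 + u)) =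
      ENNReal.ofReal (Real.pi / Real.sin (Real.pi * s)) := by
  have h1 : ∀ u ∈ Ioi (0 : ℝ), ENNReal.ofReal (u ^ (s - 1) / (1 + u)) =
      ∫⁻ z in Ioi (0 : ℝ), ENNReal.ofReal (u ^ (s - 1) * Real.exp (-((1 + u) * z))) := by
    intro u hu
    have hu' : (0 : ℝ) < u := hu
    have h2 := lintegral_gamma (a := 1) (r := 1 + u) one_pos (by linarith)
    simp only [sub_self, Real.rpow_zero, one_mul, Real.rpow_one, Real.Gamma_one, mul_one] at h2
    have h3 : ∀ z : ℝ, ENNReal.ofReal (u ^ (s - 1) * Real.exp (-((1 + u) * z))) =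
        ENNReal.ofReal (u ^ (s - 1)) * ENNReal.ofReal (Real.exp (-((1 + u) * z))) := by
      intro z
      rw [ENNReal.ofReal_mul (by positivity)]
    simp_rw [h3]
    rw [lintegral_const_mul _ (by fun_prop), h2, ← ENNReal.ofReal_mul (by positivity)]
    congr 1
    ring
  rw [setLIntegral_congr_fun measurableSet_Ioi h1]
  rw [lintegral_lintegral_swap (by fun_prop)]
  have h4 : ∀ z ∈ Ioi (0 : ℝ),
      ∫⁻ u in Ioi (0 : ℝ), ENNReal.ofReal (u ^ (s - 1) * Real.exp (-((1 + u) * z))) =
      ENNReal.ofReal (Real.Gamma s) * ENNReal.ofReal (z ^ ((1 - s) - 1) * Real.exp (-(1 * z))) := by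
    intro z hz
    have hz' : (0 : ℝ) < z := hz
    have h5 : ∀ u : ℝ, ENNReal.ofReal (u ^ (s - 1) * Real.exp (-((1 + u) * z))) =
        ENNReal.ofReal (Real.exp (-z)) * ENNReal.ofReal (u ^ (s - 1) * Real.exp (-(z * u))) := by
      intro u
      rw [← ENNReal.ofReal_mul (by positivity)]
      congr 1
      have : -((1 + u) * z) = -z + -(z * u) := by ring
      rw [this, Real.exp_add]
      ring
    simp_rw [h5]
    rw [lintegral_const_mul _ (by fun_prop), lintegral_gamma hs0 hz',
      ← ENNReal.ofReal_mul (by positivity),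
      ← ENNReal.ofReal_mul (Real.Gamma_pos_of_pos hs0).le]
    congr 1
    have h6 : (1 / z) ^ s = z ^ ((1 - s) - 1) := by
      rw [one_div, Real.inv_rpow hz'.le, ← Real.rpow_neg hz'.le]
      congr 1
      ring
    rw [h6, one_mul]
    ring
  rw [setLIntegral_congr_fun measurableSet_Ioi h4]
  rw [lintegral_const_mul _ (by fun_prop), lintegral_gamma (by linarith) one_pos,
    ← ENNReal.ofReal_mul (Real.Gamma_pos_of_pos hs0).le]
  congr 1
  rw [← Real.Gamma_mul_Gamma_one_sub]
  simp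

/-- Change of variables `x = exp u` for lower integrals. -/
lemma lintegral_Ioi_eq_exp (φ : ℝ → ℝ≥0∞) :
    ∫⁻ x in Ioi (0 : ℝ), φ x = ∫⁻ u : ℝ, ENNReal.ofReal (Real.exp u) * φ (Real.exp u) := by
  have h := lintegral_image_eq_lintegral_abs_deriv_mul (s := (univ : Set ℝ)) (f := Real.exp)
    (f' := Real.exp) MeasurableSet.univ
    (fun x _ => (Real.hasDerivAt_exp x).hasDerivWithinAt) Real.exp_injective.injOn φ
  rw [image_univ, Real.range_exp, setLIntegral_univ] at h
  rw [h]
  simp [abs_of_pos (Real.exp_pos _)]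

/-- The logistic type density. -/
noncomputable def hh (s w : ℝ) : ℝ := Real.exp (s * w) / (1 + Real.exp w)

lemma hh_pos (s w : ℝ) : 0 < hh s w := by
  unfold hh; positivity

lemma measurable_hh (s : ℝ) : Measurable (hh s) := by
  unfold hh; fun_prop

lemma lintegral_hh {s : ℝ} (hs0 : 0 < s) (hs1 : s < 1) :
    ∫⁻ w : ℝ, ENNReal.ofReal (hh s w) = ENNReal.ofReal (Real.pi / Real.sin (Real.pi * s)) := by
  rw [← lintegral_beta hs0 hs1, lintegral_Ioi_eq_exp]
  congr 1
  funext w
  rw [← ENNReal.ofReal_mul (Real.exp_pos w).le]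
  congr 1
  unfold hh
  rw [← Real.exp_mul, mul_div_assoc', ← Real.exp_add]
  congr 2
  ring

end Pool.Agent.Helper43.Hilbert
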