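import Mathlib

set_option autoImplicit false
open Filter Topology ZeroAtInfty Set

namespace Pool.Agent.Helper43.MBasis

/-- The Banach space `c_0(ℕ × ℕ)`. -/
def E : Type := C₀(ℕ × ℕ, ℝ)

noncomputable instance : NormedAddCommGroup E :=
  inferInstanceAs (NormedAddCommGroup C₀(ℕ × ℕ, ℝ))

noncomputable instance : NormedSpace ℝ E := inferInstanceAs (NormedSpace ℝ C₀(ℕ × ℕ, ℝ))

instance : CompleteSpace E := inferInstanceAs (CompleteSpace C₀(ℕ × ℕ, ℝ))

instance : FunLike E (ℕ × ℕ) ℝ := inferInstanceAs (FunLike C₀(ℕ × ℕ, ℝ) (ℕ × ℕ) ℝ)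

@[ext] lemma E.ext {f g : E} (h : ∀ z, f z = g z) : f = g := DFunLike.ext f g h

lemma smul_apply (c : ℝ) (f : E) (z : ℕ × ℕ) : (c • f) z = c * f z := rfl
lemma sub_apply (f g : E) (z : ℕ × ℕ) : (f - g) z = f z - g z := rfl
lemma zero_apply (z : ℕ × ℕ) : (0 : E) z = 0 := rfl

lemma norm_le_iff {f : E} {C : ℝ} (hC : 0 ≤ C) : ‖f‖ ≤ C ↔ ∀ z, |f z| ≤ C := by
  have h : ‖ZeroAtInftyContinuousMap.toBCF (f : C₀(ℕ × ℕ, ℝ))‖ = @norm E _ f :=
    ZeroAtInftyContinuousMap.norm_toBCF_eq_norm (f := (f : C₀(ℕ × ℕ, ℝ)))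
  rw [← h, BoundedContinuousFunction.norm_le hC]
  rfl

lemma abs_apply_le (f : E) (z : ℕ × ℕ) : |f z| ≤ ‖f‖ := (norm_le_iff (norm_nonneg f)).mp le_rfl z

/-- A function with finite support as an element of `E`. -/
def ofFinite (g : ℕ × ℕ → ℝ) (hg : {z | g z ≠ 0}.Finite) : E :=
  ({ toFun := g
     continuous_toFun := continuous_of_discreteTopology
     zero_at_infty' := by
       rw [Filter.cocompact_eq_cofinite]
       refine tendsto_const_nhds.congr' ?_
       have : ∀ᶠ z in cofinite, ¬ g z ≠ 0 := by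
         rw [Filter.eventually_cofinite]
         simpa using hg
       filter_upwards [this] with z hz
       simpa using (not_not.mp hz).symm } : C₀(ℕ × ℕ, ℝ))

@[simp] lemma ofFinite_apply (g : ℕ × ℕ → ℝ) (hg : {z | g z ≠ 0}.Finite) (z : ℕ × ℕ) :
    ofFinite g hg z = g z := rfl

/-- Evaluation as a continuous linear functional. -/
noncomputable def ev (z : ℕ × ℕ) : E →L[ℝ] ℝ :=
  LinearMap.mkContinuous
    { toFun := fun f => f z
      map_add' := fun _ _ => rfl
      map_smul' := fun _ _ => rfl } 1 (by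
        intro f
        rw [one_mul]
        exact abs_apply_le f z)

@[simp] lemma ev_apply (z : ℕ × ℕ) (f : E) : ev z f = f z := rfl

/-- The weights. -/
noncomputable def w (k i : ℕ) : ℝ := if i = 0 then 1 else 1 / ((k : ℝ) + 1)

lemma w_pos (k i : ℕ) : 0 < w k i := by
  unfold w
  split_ifs
  · exact one_pos
  · positivity

/-- The value function of the vector `x_{k,j}`. -/
noncomputable def vf (k j : ℕ) (z : ℕ × ℕ) : ℝ := if z.1 = k ∧ z.2 ≤ j then w k z.2 else 0

lemma vf_finite (k j : ℕ) : {z | vf k j z ≠ 0}.Finite := by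
  apply Set.Finite.subset ((Set.finite_singleton k).prod (Set.finite_Iic j))
  intro z hz
  have hz' : vf k j z ≠ 0 := hz
  unfold vf at hz'
  by_contra hcon
  apply hz'
  rw [if_neg]
  intro h
  exact hcon ⟨h.1, h.2⟩

/-- The vectors `x_{k,j}`. -/
noncomputable def vec (k j : ℕ) : E := ofFinite (vf k j) (vf_finite k j)

lemma vec_apply (k j : ℕ) (z : ℕ × ℕ) :
    vec k j z = if z.1 = k ∧ z.2 ≤ j then w k z.2 else 0 := rfl

/-- The functionals `f_{k,j}`. -/
noncomputable def fn (k j : ℕ) : E →L[ℝ] ℝ :=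
  (w k j)⁻¹ • ev (k, j) - (w k (j + 1))⁻¹ • ev (k, j + 1)

lemma fn_apply (k j : ℕ) (f : E) :
    fn k j f = (w k j)⁻¹ * f (k, j) - (w k (j + 1))⁻¹ * f (k, j + 1) := rfl

lemma fn_vec (k j k' j' : ℕ) : fn k j (vec k' j') = if (k, j) = (k', j') then (1 : ℝ) else 0 := by
  rw [fn_apply, vec_apply, vec_apply]
  by_cases hk : k = k'
  · subst hk
    have h1 := (w_pos k j).ne'
    have h2 := (w_pos k (j + 1)).ne'
    rcases lt_trichotomy j j' with h | h | h
    · rw [if_pos ⟨rfl, h.le⟩, if_pos ⟨rfl, h⟩, inv_mul_cancel₀ h1, inv_mul_cancel₀ h2, sub_self,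
        if_neg]
      intro hc
      have := (Prod.ext_iff.mp hc).2
      simp only at this
      omega
    · subst h
      rw [if_pos ⟨rfl, le_rfl⟩, if_neg (by simp), inv_mul_cancel₀ h1]
      simp
    · rw [if_neg (by simp; omega), if_neg (by simp; omega), if_neg]
      · ring
      · intro hc
        have := (Prod.ext_iff.mp hc).2
        simp only at this
        omega
  · rw [if_neg (by simp [hk]), if_neg (by simp [hk]), if_neg (by simp [hk])]
    ring

/-- Totality of the functionals. -/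
lemma fn_total (v : E) (hv : ∀ k j, fn k j v = 0) : v = 0 := by
  have hstep : ∀ k j, (w k j)⁻¹ * v (k, j) = (w k (j + 1))⁻¹ * v (k, j + 1) := by
    intro k j
    have := hv k j
    rw [fn_apply] at this
    linarith
  have hconst : ∀ k j, (w k j)⁻¹ * v (k, j) = (w k 0)⁻¹ * v (k, 0) := by
    intro k j
    induction j with
    | zero => rfl
    | succ j ih => rw [← hstep, ih]
  have hlim : ∀ k, Tendsto (fun j : ℕ => v (k, j)) atTop (𝓝 0) := by
    intro k
    have h1 : Tendsto v (cocompact (ℕ × ℕ)) (𝓝 0) := (ZeroAtInftyContinuousMap.zero_at_infty' (v : C₀(ℕ × ℕ, ℝ)))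
    rw [Filter.cocompact_eq_cofinite] at h1
    have h2 : Tendsto (fun j : ℕ => ((k, j) : ℕ × ℕ)) atTop cofinite := by
      rw [← Nat.cofinite_eq_atTop]
      apply Function.Injective.tendsto_cofinite
      intro a b hab
      exact (Prod.ext_iff.mp hab).2
    exact h1.comp h2
  have hzero : ∀ k, (w k 0)⁻¹ * v (k, 0) = 0 := by
    intro k
    have h3 : ∀ j, v (k, j + 1) = (1 / ((k : ℝ) + 1)) * ((w k 0)⁻¹ * v (k, 0)) := by
      intro j
      rw [← hconst k (j + 1)]
      have : w k (j + 1) = 1 / ((k : ℝ) + 1) := by simp [w]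
      rw [this]
      have hk : (k : ℝ) + 1 ≠ 0 := by positivity
      field_simp
    have h4 : Tendsto (fun j : ℕ => v (k, j + 1)) atTop (𝓝 0) :=
      (hlim k).comp (tendsto_add_atTop_nat 1)
    simp_rw [h3] at h4
    have h5 := tendsto_nhds_unique h4 tendsto_const_nhds
    have hk : (1 / ((k : ℝ) + 1)) ≠ 0 := by positivity
    exact ((mul_eq_zero.mp h5.symm).resolve_left hk)
  ext z
  have h6 := hconst z.1 z.2
  rw [hzero z.1] at h6
  have h7 : (w z.1 z.2)⁻¹ ≠ 0 := inv_ne_zero (w_pos _ _).ne'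
  exact (mul_eq_zero.mp h6).resolve_left h7

/-- The unit vectors. -/
noncomputable def unit (z : ℕ × ℕ) : E :=
  ofFinite (fun y => if y = z then 1 else 0) (by
    apply (Set.finite_singleton z).subset
    intro y hy
    by_contra hcon
    exact hy (if_neg hcon))

lemma unit_apply (z y : ℕ × ℕ) : unit z y = if y = z then 1 else 0 := rfl

/-- The M-basis. -/
noncomputable def X (n : ℕ) : E := vec n.unpair.1 n.unpair.2

lemma vec_mem (k j : ℕ) : vec k j ∈ Submodule.span ℝ (Set.range X) := by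
  apply Submodule.subset_span
  refine ⟨Nat.pair k j, ?_⟩
  simp [X]

lemma unit_mem (k j : ℕ) : unit (k, j) ∈ Submodule.span ℝ (Set.range X) := by
  cases j with
  | zero =>
    have : unit (k, 0) = vec k 0 := by
      ext z
      rw [unit_apply, vec_apply]
      by_cases hz : z = (k, 0)
      · subst hz; simp [w]
      · rw [if_neg hz, if_neg]
        rintro ⟨h1, h2⟩
        exact hz (Prod.ext h1 (Nat.le_zero.mp h2))
    rw [this]
    exact vec_mem k 0
  | succ j =>
    have : unit (k, j + 1) = ((k : ℝ) + 1) • (vec k (j + 1) - vec k j) := by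
      ext z
      have hk : (k : ℝ) + 1 ≠ 0 := by positivity
      rw [unit_apply, smul_apply, sub_apply,
        vec_apply, vec_apply]
      by_cases hz : z = (k, j + 1)
      · subst hz
        simp [w, hk]
      · rw [if_neg hz]
        by_cases h1 : z.1 = k
        · by_cases h2 : z.2 ≤ j
          · rw [if_pos ⟨h1, by omega⟩, if_pos ⟨h1, h2⟩]; simp
          · have h3 : ¬ z.2 ≤ j + 1 := by
              intro h4
              exact hz (Prod.ext h1 (by simp only; omega))
            rw [if_neg (by tauto), if_neg (by tauto)]; simp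
        · rw [if_neg (by tauto), if_neg (by tauto)]; simp
    rw [this]
    exact Submodule.smul_mem _ _ (Submodule.sub_mem _ (vec_mem _ _) (vec_mem _ _))

lemma dense_span : Dense ((Submodule.span ℝ (Set.range X) : Submodule ℝ E) : Set E) := by
  intro f
  rw [Metric.mem_closure_iff]
  intro ε hε
  have hfin : {z | ε / 2 ≤ |f z|}.Finite := by
    have h1 : Tendsto f (cocompact (ℕ × ℕ)) (𝓝 0) := (ZeroAtInftyContinuousMap.zero_at_infty' (f : C₀(ℕ × ℕ, ℝ)))
    rw [Filter.cocompact_eq_cofinite] at h1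
    have h2 := h1.eventually (Metric.ball_mem_nhds (0 : ℝ) (half_pos hε))
    rw [Filter.eventually_cofinite] at h2
    refine h2.subset ?_
    intro z hz hz'
    have hz'' : dist (f z) 0 < ε / 2 := hz'
    rw [dist_zero_right, Real.norm_eq_abs] at hz''
    have : ε / 2 ≤ |f z| := hz
    linarith
  refine ⟨∑ z ∈ hfin.toFinset, f z • unit z, ?_, ?_⟩
  · apply Submodule.sum_mem
    intro z _
    exact Submodule.smul_mem _ _ (unit_mem z.1 z.2)
  · rw [dist_eq_norm]
    refine lt_of_le_of_lt ?_ (half_lt_self hε)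
    rw [norm_le_iff (half_pos hε).le]
    intro y
    have hs : (∑ z ∈ hfin.toFinset, f z • unit z) y = if y ∈ hfin.toFinset then f y else 0 := by
      have h1 : (∑ z ∈ hfin.toFinset, f z • unit z) y =
          ∑ z ∈ hfin.toFinset, (f z • unit z) y := by
        rw [← ev_apply, map_sum]
        rfl
      rw [h1]
      simp only [smul_apply, unit_apply, mul_ite, mul_one, mul_zero]
      rw [Finset.sum_ite_eq]
    rw [sub_apply, hs]
    by_cases hy : y ∈ hfin.toFinset
    · rw [if_pos hy, sub_self, abs_zero]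
      exact (half_pos hε).le
    · rw [if_neg hy, sub_zero]
      rw [Set.Finite.mem_toFinset] at hy
      exact (not_le.mp hy).le

lemma one_le_norm_vec (k j : ℕ) : 1 ≤ ‖vec k j‖ := by
  have h := abs_apply_le (vec k j) (k, 0)
  rw [vec_apply, if_pos ⟨rfl, Nat.zero_le _⟩] at h
  simpa [w] using h

lemma norm_vec_sub_le (k j j' : ℕ) : ‖vec k j - vec k j'‖ ≤ 1 / ((k : ℝ) + 1) := by
  have hk : (0 : ℝ) ≤ 1 / ((k : ℝ) + 1) := by positivity
  rw [norm_le_iff hk]
  intro z
  rw [sub_apply, vec_apply, vec_apply]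
  by_cases h1 : z.1 = k
  · by_cases h0 : z.2 = 0
    · rw [if_pos ⟨h1, by omega⟩, if_pos ⟨h1, by omega⟩, sub_self, abs_zero]
      exact hk
    · have hw : w k z.2 = 1 / ((k : ℝ) + 1) := by simp [w, h0]
      rw [hw]
      split_ifs
      · rw [sub_self, abs_zero]; exact hk
      · rw [sub_zero, abs_of_nonneg hk]
      · rw [zero_sub, abs_neg, abs_of_nonneg hk]
      · rw [sub_self, abs_zero]; exact hk
  · rw [if_neg (by tauto), if_neg (by tauto), sub_self, abs_zero]
    exact hk

/-- The biorthogonal functionals. -/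
noncomputable def Fn (n : ℕ) : E →L[ℝ] ℝ := fn n.unpair.1 n.unpair.2

lemma Fn_X (i j : ℕ) : Fn i (X j) = if i = j then (1 : ℝ) else 0 := by
  unfold Fn X
  rw [fn_vec]
  by_cases h : i = j
  · subst h; simp
  · rw [if_neg h, if_neg]
    intro hc
    apply h
    have h1 := (Prod.ext_iff.mp hc).1
    have h2 := (Prod.ext_iff.mp hc).2
    simp only at h1 h2
    rw [← Nat.pair_unpair i, ← Nat.pair_unpair j, h1, h2]

lemma Fn_total (v : E) (hv : ∀ n, Fn n v = 0) : v = 0 := by
  apply fn_total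
  intro k j
  have := hv (Nat.pair k j)
  simpa [Fn] using this

/-- Partial sum operators on a subspace. -/
noncomputable def G (c : ℕ → ℕ) (F : Submodule ℝ E) (n : ℕ) : F →L[ℝ] E :=
  ∑ i ∈ Finset.range n, ((Fn (c i)).comp F.subtypeL).smulRight (X (c i))

lemma G_apply (c : ℕ → ℕ) (F : Submodule ℝ E) (n : ℕ) (v : F) :
    G c F n v = ∑ i ∈ Finset.range n, (Fn (c i) (v : E)) • X (c i) := by
  unfold G
  rw [FunLike.coe_sum, Finset.sum_apply]
  rfl

lemma coef_eq (c : ℕ → ℕ) (hc : StrictMono c) (p : ℕ → ℕ) (hp : StrictMono p) (v : E) (t : ℕ → ℝ)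
    (ht : Filter.Tendsto (fun k => ∑ i ∈ Finset.range (p k), t i • X (c i)) Filter.atTop (nhds v))
    (i : ℕ) : t i = Fn (c i) v := by
  have h1 := ((Fn (c i)).continuous.tendsto v).comp ht
  have h2 : ∀ᶠ k in atTop, (Fn (c i) ∘ fun k => ∑ i ∈ Finset.range (p k), t i • X (c i)) k =
      t i := by
    filter_upwards [Filter.eventually_gt_atTop i] with k hk
    have hpk : i < p k := lt_of_lt_of_le hk (hp.le_apply)
    simp only [Function.comp_apply, map_sum, map_smul, Fn_X, smul_eq_mul]
    rw [Finset.sum_eq_single i]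
    · simp
    · intro b _ hb
      rw [if_neg, mul_zero]
      intro h3
      exact hb (hc.injective h3).symm
    · intro h3
      exact absurd (Finset.mem_range.mpr hpk) h3
  have h3 : Tendsto (Fn (c i) ∘ fun k => ∑ i ∈ Finset.range (p k), t i • X (c i)) atTop
      (𝓝 (t i)) := tendsto_const_nhds.congr' (h2.mono fun _ h => h.symm)
  exact tendsto_nhds_unique h3 h1

/-- The partial sum operators along the parentheses are uniformly bounded. -/
lemma unif_bound (c : ℕ → ℕ) (hc : StrictMono c) (p : ℕ → ℕ) (hp : StrictMono p)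
    (hexp : ∀ v ∈ (Submodule.span ℝ (Set.range (fun i => X (c i)))).topologicalClosure,
        ∃! t : ℕ → ℝ,
          Filter.Tendsto (fun k => ∑ i ∈ Finset.range (p k), t i • X (c i))
            Filter.atTop (nhds v)) :
    ∃ M : ℝ, 0 ≤ M ∧ ∀ k, ∀ v ∈ (Submodule.span ℝ (Set.range (fun i => X (c i)))).topologicalClosure,
      ‖∑ i ∈ Finset.range (p k), (Fn (c i) v) • X (c i)‖ ≤ M * ‖v‖ := by
  have hcomp : CompleteSpace (Submodule.span ℝ (Set.range (fun i => X (c i)))).topologicalClosure :=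
    Submodule.topologicalClosure.completeSpace _
  have hpw : ∀ v : (Submodule.span ℝ (Set.range (fun i => X (c i)))).topologicalClosure,
      ∃ C, ∀ k, ‖G c _ (p k) v‖ ≤ C := by
    intro v
    obtain ⟨t, ht, -⟩ := hexp v v.2
    have ht' : Tendsto (fun k => G c _ (p k) v) atTop (𝓝 (v : E)) := by
      refine ht.congr fun k => ?_
      rw [G_apply]
      refine Finset.sum_congr rfl fun i _ => ?_
      rw [coef_eq c hc p hp v t ht i]
    obtain ⟨C, hC⟩ := ht'.norm.bddAbove_range
    exact ⟨C, fun k => hC ⟨k, rfl⟩⟩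
  have hbs : ∃ M, ∀ k, ‖G c (Submodule.span ℝ (Set.range (fun i => X (c i)))).topologicalClosure
      (p k)‖ ≤ M := by
    apply banach_steinhaus
    exact hpw
  obtain ⟨M, hM⟩ := hbs
  refine ⟨M, le_trans (ContinuousLinearMap.opNorm_nonneg _) (hM 0), ?_⟩
  intro k v hv
  have h1 := (G c _ (p k)).le_of_opNorm_le (hM k) ⟨v, hv⟩
  rw [G_apply] at h1
  exact h1

/-- A subsequence containing infinitely many elements of infinitely many rows is not a basis with
parentheses of its closed span. -/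
lemma not_basis (c : ℕ → ℕ) (hc : StrictMono c)
    (hrows : ∀ K : ℕ, ∃ k, K ≤ k ∧ ∀ N, ∃ i, N ≤ i ∧ (c i).unpair.1 = k) :
    ¬ ∃ p : ℕ → ℕ, StrictMono p ∧
      ∀ v ∈ (Submodule.span ℝ (Set.range (fun i => X (c i)))).topologicalClosure,
        ∃! t : ℕ → ℝ,
          Filter.Tendsto (fun k => ∑ i ∈ Finset.range (p k), t i • X (c i))
            Filter.atTop (nhds v) := by
  rintro ⟨p, hp, hexp⟩
  obtain ⟨M, hM0, hM⟩ := unif_bound c hc p hp hexp
  obtain ⟨K, hK⟩ := exists_nat_gt M
  obtain ⟨k, hKk, hk⟩ := hrows K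
  obtain ⟨i, -, hi⟩ := hk 0
  obtain ⟨j, hj, hj'⟩ := hk (p (i + 1))
  have hip : i < p (i + 1) := lt_of_lt_of_le (Nat.lt_succ_self i) hp.le_apply
  have hmem : ∀ i, X (c i) ∈
      (Submodule.span ℝ (Set.range (fun i => X (c i)))).topologicalClosure := fun i =>
    Submodule.le_topologicalClosure _ (Submodule.subset_span ⟨i, rfl⟩)
  have h1 := hM (i + 1) (X (c i) - X (c j)) (Submodule.sub_mem _ (hmem i) (hmem j))
  have hgv : ∑ l ∈ Finset.range (p (i + 1)), (Fn (c l) (X (c i) - X (c j))) • X (c l) =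
      X (c i) := by
    have h1 : ∀ l ∈ Finset.range (p (i + 1)), (Fn (c l) (X (c i) - X (c j))) • X (c l) =
        if l = i then X (c i) else 0 := by
      intro l hl
      have hlp := Finset.mem_range.mp hl
      rw [map_sub, Fn_X, Fn_X]
      have h3 : c l ≠ c j := by
        intro h4
        have := hc.injective h4
        omega
      rw [if_neg h3]
      by_cases hli : l = i
      · subst hli; simp
      · have h5 : c l ≠ c i := fun h4 => hli (hc.injective h4)
        rw [if_neg h5, if_neg hli]; simp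
    rw [Finset.sum_congr rfl h1, Finset.sum_ite_eq', if_pos (Finset.mem_range.mpr hip)]
  rw [hgv] at h1
  have h2 : 1 ≤ ‖X (c i)‖ := one_le_norm_vec _ _
  have h3 : ‖X (c i) - X (c j)‖ ≤ 1 / ((k : ℝ) + 1) := by
    unfold X
    rw [hi, hj']
    exact norm_vec_sub_le k _ _
  have h5 : M * ‖X (c i) - X (c j)‖ ≤ M * (1 / ((k : ℝ) + 1)) :=
    mul_le_mul_of_nonneg_left h3 hM0
  have h6 : M * (1 / ((k : ℝ) + 1)) < 1 := by
    rw [mul_one_div, div_lt_one (by positivity)]
    have : (K : ℝ) ≤ k := by exact_mod_cast hKk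
    linarith
  linarith

end Pool.Agent.Helper43.MBasis
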