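import Mathlib
import Pool.Agent.Helper43.BetaInt

set_option autoImplicit false
open MeasureTheory Set
open scoped ENNReal

namespace Pool.Agent.Helper43.Hilbert

/-- Refined Young inequality. -/
lemma refined_young {θ κ : ℝ} (h0 : 0 < θ) (h1 : θ < 1) (hκ : 0 < κ) :
    κ ^ θ + min θ (1 - θ) * (1 - Real.sqrt κ) ^ 2 ≤ 1 - θ + θ * κ := by
  have hsq : Real.sqrt κ * Real.sqrt κ = κ := Real.mul_self_sqrt hκ.le
  have hs : 0 < Real.sqrt κ := Real.sqrt_pos.mpr hκ
  rcases le_total θ (1 - θ) with h | h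
  · rw [min_eq_left h]
    have h2 := Real.geom_mean_le_arith_mean2_weighted (w₁ := 1 - 2 * θ) (w₂ := 2 * θ)
      (p₁ := 1) (p₂ := Real.sqrt κ) (by linarith) (by linarith) zero_le_one hs.le (by ring)
    have h3 : Real.sqrt κ ^ (2 * θ) = κ ^ θ := by
      rw [Real.rpow_mul hs.le, Real.rpow_two, sq, hsq]
    rw [Real.one_rpow, one_mul, h3] at h2
    nlinarith
  · rw [min_eq_right h]
    have h2 := Real.geom_mean_le_arith_mean2_weighted (w₁ := 2 * θ - 1) (w₂ := 2 * (1 - θ))
      (p₁ := κ) (p₂ := Real.sqrt κ) (by linarith) (by linarith) hκ.le hs.le (by ring)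
    have h3 : Real.sqrt κ ^ (2 * (1 - θ)) = κ ^ (1 - θ) := by
      rw [Real.rpow_mul hs.le, Real.rpow_two, sq, hsq]
    rw [h3, ← Real.rpow_add hκ] at h2
    have h4 : 2 * θ - 1 + (1 - θ) = θ := by ring
    rw [h4] at h2
    nlinarith

/-- The defect factor. -/
noncomputable def zeta (θ κ : ℝ) : ℝ := κ ^ θ / (1 - θ + θ * κ)

lemma omega_pos {θ κ : ℝ} (h0 : 0 < θ) (h1 : θ < 1) (hκ : 0 < κ) : 0 < 1 - θ + θ * κ := by
  have : 0 < θ * κ := mul_pos h0 hκ
  linarith

lemma zeta_pos {θ κ : ℝ} (h0 : 0 < θ) (h1 : θ < 1) (hκ : 0 < κ) : 0 < zeta θ κ :=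
  div_pos (Real.rpow_pos_of_pos hκ _) (omega_pos h0 h1 hκ)

lemma zeta_le_one {θ κ : ℝ} (h0 : 0 < θ) (h1 : θ < 1) (hκ : 0 < κ) : zeta θ κ ≤ 1 := by
  rw [zeta, div_le_one (omega_pos h0 h1 hκ)]
  have h := refined_young h0 h1 hκ
  have h2 : 0 ≤ min θ (1 - θ) * (1 - Real.sqrt κ) ^ 2 :=
    mul_nonneg (le_min h0.le (by linarith)) (sq_nonneg _)
  linarith

/-- The uniform gap away from `κ = 1`. -/
lemma zeta_gap {θ κ : ℝ} (h0 : 0 < θ) (h1 : θ < 1) (hκ : 0 < κ) (h : κ ≤ 1 / 2 ∨ 2 ≤ κ) :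
    zeta θ κ ≤ 1 - min θ (1 - θ) * (1 - Real.sqrt (1 / 2)) ^ 2 := by
  have hω := omega_pos h0 h1 hκ
  have hm : 0 < min θ (1 - θ) := lt_min h0 (by linarith)
  have hR := refined_young h0 h1 hκ
  rw [zeta, div_le_iff₀ hω]
  have hsq : Real.sqrt κ * Real.sqrt κ = κ := Real.mul_self_sqrt hκ.le
  have hs : 0 < Real.sqrt κ := Real.sqrt_pos.mpr hκ
  have hr1 : Real.sqrt (1 / 2) ≤ 1 := by
    rw [Real.sqrt_le_left zero_le_one]; norm_num
  have hr0 : 0 ≤ Real.sqrt (1 / 2) := Real.sqrt_nonneg _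
  -- suffices
  have key : (1 - θ + θ * κ) * (1 - Real.sqrt (1 / 2)) ^ 2 ≤ (1 - Real.sqrt κ) ^ 2 := by
    rcases h with h | h
    · have h2 : Real.sqrt κ ≤ Real.sqrt (1 / 2) := Real.sqrt_le_sqrt h
      have h3 : (1 - Real.sqrt (1 / 2)) ^ 2 ≤ (1 - Real.sqrt κ) ^ 2 := by
        apply pow_le_pow_left₀ <;> linarith
      have h4 : 1 - θ + θ * κ ≤ 1 := by nlinarith
      calc (1 - θ + θ * κ) * (1 - Real.sqrt (1 / 2)) ^ 2
          ≤ 1 * (1 - Real.sqrt (1 / 2)) ^ 2 := by
            apply mul_le_mul_of_nonneg_right h4 (sq_nonneg _)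
        _ ≤ _ := by linarith
    · have h4 : 1 - θ + θ * κ ≤ κ := by nlinarith
      have h5 : 1 ≤ Real.sqrt κ * Real.sqrt (1 / 2) := by
        rw [← Real.sqrt_mul hκ.le]
        rw [Real.one_le_sqrt]
        linarith
      calc (1 - θ + θ * κ) * (1 - Real.sqrt (1 / 2)) ^ 2
          ≤ κ * (1 - Real.sqrt (1 / 2)) ^ 2 := by
            apply mul_le_mul_of_nonneg_right h4 (sq_nonneg _)
        _ = (Real.sqrt κ - Real.sqrt κ * Real.sqrt (1 / 2)) ^ 2 := by
            nth_rewrite 1 [← hsq]; ring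
        _ ≤ (Real.sqrt κ - 1) ^ 2 := by
            apply pow_le_pow_left₀
            · have : Real.sqrt κ * Real.sqrt (1 / 2) ≤ Real.sqrt κ * 1 :=
                mul_le_mul_of_nonneg_left hr1 hs.le
              linarith
            · linarith
        _ = _ := by ring
  nlinarith [mul_le_mul_of_nonneg_left key hm.le]

/-- Uniform gap for the kernel. -/
lemma kernel_gap {s θ e : ℝ} (hs0 : 0 < s) (hs1 : s < 1) (h0 : 0 < θ) (h1 : θ < 1) (he : 0 < e) :
    ∃ c' : ℝ, 0 < c' ∧ c' < Real.pi / Real.sin (Real.pi * s) ∧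
      ∀ t : ℝ, 0 < t →
        ∫⁻ w : ℝ, ENNReal.ofReal (hh s w * zeta θ (t * hh s w) ^ e) ≤ ENNReal.ofReal c' := by
  set c := Real.pi / Real.sin (Real.pi * s) with hc
  have hcpos : 0 < c := by
    apply div_pos Real.pi_pos
    apply Real.sin_pos_of_pos_of_lt_pi
    · positivity
    · nlinarith [Real.pi_pos]
  have hm : 0 < min θ (1 - θ) := lt_min h0 (by linarith)
  have hm1 : min θ (1 - θ) ≤ 1 := le_trans (min_le_left _ _) h1.le
  have hr1 : Real.sqrt (1 / 2) < 1 := by
    rw [Real.sqrt_lt' one_pos]; norm_num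
  have hr0 : 0 < Real.sqrt (1 / 2) := Real.sqrt_pos.mpr (by norm_num)
  set z0 := 1 - min θ (1 - θ) * (1 - Real.sqrt (1 / 2)) ^ 2 with hz0
  have hz1 : z0 < 1 := by
    have : 0 < min θ (1 - θ) * (1 - Real.sqrt (1 / 2)) ^ 2 :=
      mul_pos hm (pow_pos (by linarith) 2)
    linarith
  have hz00 : 0 ≤ z0 := by
    have h3 : (1 - Real.sqrt (1 / 2)) ^ 2 ≤ 1 := by
      apply pow_le_one₀ <;> linarith
    have : min θ (1 - θ) * (1 - Real.sqrt (1 / 2)) ^ 2 ≤ 1 * 1 :=
      mul_le_mul hm1 h3 (sq_nonneg _) zero_le_one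
    linarith
  set η0 := z0 ^ e with hη0
  have hη1 : η0 < 1 := Real.rpow_lt_one hz00 hz1 he
  have hη0' : 0 ≤ η0 := Real.rpow_nonneg hz00 _
  set w1 := 4 / (1 - s) with hw1
  have hw1pos : 0 < w1 := div_pos (by norm_num) (by linarith)
  set b0 := 1 / (1 + Real.exp (w1 + 1)) with hb0
  have hb0pos : 0 < b0 := by positivity
  set a0 := (1 - η0) * b0 with ha0
  have ha0pos : 0 < a0 := mul_pos (by linarith) hb0pos
  have lower : ∀ w, 0 ≤ w → w ≤ w1 + 1 → b0 ≤ hh s w := by
    intro w hw hw'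
    unfold hh
    rw [hb0]
    apply div_le_div₀ (by positivity) _ (by positivity)
    · have := Real.exp_le_exp.mpr hw'
      linarith
    · exact Real.one_le_exp (by positivity)
  -- key estimate for each `t`
  have main : ∀ t : ℝ, 0 < t →
      (∫⁻ w : ℝ, ENNReal.ofReal (hh s w * zeta θ (t * hh s w) ^ e)) + ENNReal.ofReal a0 ≤
        ENNReal.ofReal c := by
    intro t ht
    -- choose the set
    obtain ⟨a, ha, ha', hgap⟩ : ∃ a : ℝ, 0 ≤ a ∧ a ≤ w1 ∧ ∀ w ∈ Icc a (a + 1),
        (t * hh s w ≤ 1 / 2 ∨ 2 ≤ t * hh s w) := by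
      by_cases htc : t ≤ 8
      · refine ⟨w1, hw1pos.le, le_rfl, ?_⟩
        intro w hw
        left
        have h2 : hh s w ≤ Real.exp (-4) := by
          unfold hh
          rw [div_le_iff₀ (by positivity)]
          have h3 : s * w + 4 ≤ w := by
            have h4 : (1 - s) * w1 ≤ (1 - s) * w := mul_le_mul_of_nonneg_left hw.1 (by linarith)
            have h5 : (1 - s) * w1 = 4 := by
              rw [hw1, mul_div_assoc', mul_comm, mul_div_assoc,
                div_self (by linarith : (1 - s) ≠ 0), mul_one]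
            nlinarith
          have h4 : Real.exp (s * w) ≤ Real.exp (-4) * Real.exp w := by
            rw [← Real.exp_add]
            exact Real.exp_le_exp.mpr (by linarith)
          nlinarith [Real.exp_pos (-4)]
        have h6 : Real.exp (-4) ≤ 1 / 16 := by
          have h7 : (2 : ℝ) ≤ Real.exp 1 := by
            have := Real.add_one_le_exp (1 : ℝ); linarith
          have h8 : Real.exp (-4) = 1 / (Real.exp 1) ^ 4 := by
            rw [← Real.exp_nat_mul, Real.exp_neg]; norm_num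
          rw [h8]
          apply one_div_le_one_div_of_le (by norm_num)
          calc (16 : ℝ) = 2 ^ 4 := by norm_num
            _ ≤ _ := pow_le_pow_left₀ (by norm_num) h7 4
        have h9 : t * hh s w ≤ 8 * (1 / 16) :=
          mul_le_mul htc (by linarith) (hh_pos s w).le (by norm_num)
        linarith
      · push Not at htc
        refine ⟨0, le_rfl, hw1pos.le, ?_⟩
        intro w hw
        right
        have h2 : 1 / 4 ≤ hh s w := by
          unfold hh
          rw [div_le_div_iff₀ (by norm_num) (by positivity)]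
          have h3 : Real.exp w ≤ 3 := by
            have h4 : Real.exp w ≤ Real.exp 1 := Real.exp_le_exp.mpr (by linarith [hw.2])
            have := Real.exp_one_lt_d9
            linarith
          have h5 : 1 ≤ Real.exp (s * w) := Real.one_le_exp (mul_nonneg hs0.le hw.1)
          linarith
        nlinarith
    have hmeas : Measurable (fun w => ENNReal.ofReal (hh s w * zeta θ (t * hh s w) ^ e)) := by
      unfold zeta
      have := measurable_hh s
      fun_prop
    have h5 : ENNReal.ofReal a0 ≤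
        ∫⁻ w, (Icc a (a + 1)).indicator (fun _ => ENNReal.ofReal a0) w := by
      rw [lintegral_indicator measurableSet_Icc]
      simp
    calc (∫⁻ w : ℝ, ENNReal.ofReal (hh s w * zeta θ (t * hh s w) ^ e)) + ENNReal.ofReal a0
        ≤ (∫⁻ w : ℝ, ENNReal.ofReal (hh s w * zeta θ (t * hh s w) ^ e)) +
          ∫⁻ w, (Icc a (a + 1)).indicator (fun _ => ENNReal.ofReal a0) w := by gcongr
      _ = ∫⁻ w : ℝ, (ENNReal.ofReal (hh s w * zeta θ (t * hh s w) ^ e) +
          (Icc a (a + 1)).indicator (fun _ => ENNReal.ofReal a0) w) := by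
          rw [lintegral_add_left hmeas]
      _ ≤ ∫⁻ w : ℝ, ENNReal.ofReal (hh s w) := by
          apply lintegral_mono
          intro w
          have hhp := hh_pos s w
          have hκ : 0 < t * hh s w := mul_pos ht hhp
          by_cases hw : w ∈ Icc a (a + 1)
          · simp only [indicator_of_mem hw]
            rw [← ENNReal.ofReal_add
              (mul_nonneg hhp.le (Real.rpow_nonneg (zeta_pos h0 h1 hκ).le _)) ha0pos.le]
            apply ENNReal.ofReal_le_ofReal
            have h6 : zeta θ (t * hh s w) ^ e ≤ η0 :=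
              Real.rpow_le_rpow (zeta_pos h0 h1 hκ).le (zeta_gap h0 h1 hκ (hgap w hw)) he.le
            have h7 : b0 ≤ hh s w := lower w (by linarith [hw.1]) (by linarith [hw.2])
            have h8 : hh s w * zeta θ (t * hh s w) ^ e ≤ hh s w * η0 :=
              mul_le_mul_of_nonneg_left h6 hhp.le
            have h9 : (1 - η0) * b0 ≤ (1 - η0) * hh s w :=
              mul_le_mul_of_nonneg_left h7 (by linarith)
            rw [ha0]
            nlinarith
          · simp only [indicator_of_notMem hw, add_zero]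
            apply ENNReal.ofReal_le_ofReal
            have h6 : zeta θ (t * hh s w) ^ e ≤ 1 :=
              Real.rpow_le_one (zeta_pos h0 h1 hκ).le (zeta_le_one h0 h1 hκ) he.le
            nlinarith
      _ = ENNReal.ofReal c := lintegral_hh hs0 hs1
  refine ⟨max (c - a0) (c / 2), lt_of_lt_of_le (by linarith) (le_max_right _ _),
    max_lt (by linarith) (by linarith), ?_⟩
  intro t ht
  have h2 := main t ht
  calc (∫⁻ w : ℝ, ENNReal.ofReal (hh s w * zeta θ (t * hh s w) ^ e))
      ≤ ENNReal.ofReal c - ENNReal.ofReal a0 := ENNReal.le_sub_of_add_le_right (by simp) h2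
    _ = ENNReal.ofReal (c - a0) := by rw [ENNReal.ofReal_sub _ ha0pos.le]
    _ ≤ _ := ENNReal.ofReal_le_ofReal (le_max_left _ _)

end Pool.Agent.Helper43.Hilbert
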