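import Mathlib
import Pool.Agent.Helper43.YoungGap

set_option autoImplicit false
open MeasureTheory Set
open scoped ENNReal

namespace Pool.Agent.Helper43.Hilbert

/-- Exponent bookkeeping. -/
structure Params (p q : ℝ) : Prop where
  hp : 1 < p
  hq : 1 < q
  hpq : 1 < 1 / p + 1 / q

/-- `lam = 2 - 1/p - 1/q`. -/
noncomputable def lam (p q : ℝ) : ℝ := 2 - 1 / p - 1 / q

/-- `s = (1 - 1/p)/lam`. -/
noncomputable def ss (p q : ℝ) : ℝ := (1 - 1 / p) / lam p q

/-- `θ = p (1 - 1/q)`. -/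
noncomputable def th (p q : ℝ) : ℝ := p * (1 - 1 / q)

namespace Params

variable {p q : ℝ}

lemma p_pos (h : Params p q) : 0 < p := by linarith [h.hp]
lemma q_pos (h : Params p q) : 0 < q := by linarith [h.hq]

lemma inv_p_lt (h : Params p q) : 1 / p < 1 := by
  rw [div_lt_one h.p_pos]; exact h.hp

lemma inv_q_lt (h : Params p q) : 1 / q < 1 := by
  rw [div_lt_one h.q_pos]; exact h.hq

lemma inv_p_pos (h : Params p q) : 0 < 1 / p := by have := h.p_pos; positivity
lemma inv_q_pos (h : Params p q) : 0 < 1 / q := by have := h.q_pos; positivity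

lemma lam_pos (h : Params p q) : 0 < lam p q := by
  have h1 := h.inv_p_lt
  have h2 := h.inv_q_lt
  unfold lam; linarith

lemma ss_pos (h : Params p q) : 0 < ss p q :=
  div_pos (by linarith [h.inv_p_lt]) h.lam_pos

lemma lam_mul_ss (h : Params p q) : lam p q * ss p q = 1 - 1 / p := by
  unfold ss
  rw [mul_div_cancel₀]
  exact h.lam_pos.ne'

lemma lam_mul_one_sub_ss (h : Params p q) : lam p q * (1 - ss p q) = 1 - 1 / q := by
  rw [mul_sub, h.lam_mul_ss]
  unfold lam; ring

lemma ss_lt_one (h : Params p q) : ss p q < 1 := by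
  have h1 := h.lam_mul_one_sub_ss
  have h2 := h.inv_q_lt
  have h3 : 0 < lam p q * (1 - ss p q) := by rw [h1]; linarith
  have h4 := pos_of_mul_pos_of_pos_left h3 h.lam_pos.le
  linarith
where
  pos_of_mul_pos_of_pos_left {a b : ℝ} (h : 0 < a * b) (ha : 0 ≤ a) : 0 < b := by
    by_contra hb
    push Not at hb
    have := mul_nonpos_of_nonneg_of_nonpos ha hb
    linarith

lemma th_pos (h : Params p q) : 0 < th p q := mul_pos h.p_pos (by linarith [h.inv_q_lt])

lemma th_lt_one (h : Params p q) : th p q < 1 := by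
  have h1 : 1 - 1 / q < 1 / p := by linarith [h.hpq]
  have h2 : p * (1 - 1 / q) < p * (1 / p) := mul_lt_mul_of_pos_left h1 h.p_pos
  rw [mul_one_div_cancel h.p_pos.ne'] at h2
  exact h2

end Params

/-- Pointwise-in-`v` estimate. -/
lemma young_point {p q : ℝ} (h : Params p q) {c' : ℝ}
    (hc' : ∀ t : ℝ, 0 < t → ∫⁻ w : ℝ, ENNReal.ofReal
      (hh (ss p q) w * zeta (th p q) (t * hh (ss p q) w) ^ (1 / (p - 1))) ≤ ENNReal.ofReal c')
    {F : ℝ → ℝ≥0∞} (hF : Measurable F) {A β : ℝ≥0∞} (hA : ∫⁻ u, F u ^ p = A) (hA0 : A ≠ 0)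
    (hAt : A ≠ ∞) (v : ℝ) (hβ : ∫⁻ u, F u ^ p * ENNReal.ofReal (hh (ss p q) (u - v)) = β)
    (hβ0 : β ≠ 0) (hβt : β ≠ ∞) :
    ∫⁻ u, F u * ENNReal.ofReal (hh (ss p q) (u - v) ^ (lam p q)) ≤
      A ^ (1 / p) * (β / A) ^ (1 - 1 / q) * ENNReal.ofReal c' ^ (1 - 1 / p) := by
  set s := ss p q with hs
  set θ := th p q with hθ
  set l := lam p q with hl
  have hp := h.hp
  have hp0 := h.p_pos
  have hθ0 := h.th_pos
  have hθ1 := h.th_lt_one
  rw [← hθ] at hθ0 hθ1
  have hms := measurable_hh s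
  have hpm1 : 0 < p - 1 := by linarith
  set p' := p / (p - 1) with hp'
  have hconj : p.HolderConjugate p' := by
    rw [hp']
    exact Real.HolderConjugate.conjExponent hp
  -- the real number t = A / β
  have hAβ0 : A / β ≠ 0 := ENNReal.div_ne_zero.mpr ⟨hA0, hβt⟩
  have hAβt : A / β ≠ ∞ := ENNReal.div_ne_top hAt hβ0
  set t := (A / β).toReal with ht
  have ht0 : 0 < t := ENNReal.toReal_pos hAβ0 hAβt
  have hoft : ENNReal.ofReal t = A / β := ENNReal.ofReal_toReal hAβt
  set ω : ℝ → ℝ := fun u => 1 - θ + θ * (t * hh s (u - v)) with hω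
  have hωpos : ∀ u, 0 < ω u := fun u => omega_pos hθ0 hθ1 (mul_pos ht0 (hh_pos s _))
  have hωm : Measurable ω := by
    have : Measurable (fun u => hh s (u - v)) := hms.comp (measurable_id.sub_const v)
    fun_prop
  have hhm : Measurable (fun u => hh s (u - v)) := hms.comp (measurable_id.sub_const v)
  -- factorization
  have hfac : ∀ u, F u * ENNReal.ofReal (hh s (u - v) ^ l) =
      (F u * ENNReal.ofReal (ω u ^ (1 / p))) *
        ENNReal.ofReal (hh s (u - v) ^ l * ω u ^ (-(1 / p))) := by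
    intro u
    rw [mul_assoc, ← ENNReal.ofReal_mul (Real.rpow_nonneg (hωpos u).le _)]
    congr 2
    rw [mul_comm (hh s (u - v) ^ l), ← mul_assoc, ← Real.rpow_add (hωpos u)]
    simp
  have hholder := ENNReal.lintegral_mul_le_Lp_mul_Lq volume hconj
    (f := fun u => F u * ENNReal.ofReal (ω u ^ (1 / p)))
    (g := fun u => ENNReal.ofReal (hh s (u - v) ^ l * ω u ^ (-(1 / p))))
    (by fun_prop) (by fun_prop)
  simp only [Pi.mul_apply] at hholder
  simp_rw [hfac]
  refine hholder.trans ?_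
  -- first factor
  have hfirst : ∫⁻ u, (F u * ENNReal.ofReal (ω u ^ (1 / p))) ^ p = A := by
    have h1 : ∀ u, (F u * ENNReal.ofReal (ω u ^ (1 / p))) ^ p =
        ENNReal.ofReal (1 - θ) * F u ^ p +
          ENNReal.ofReal (θ * t) * (F u ^ p * ENNReal.ofReal (hh s (u - v))) := by
      intro u
      rw [ENNReal.mul_rpow_of_nonneg _ _ hp0.le,
        ENNReal.ofReal_rpow_of_nonneg (Real.rpow_nonneg (hωpos u).le _) hp0.le,
        ← Real.rpow_mul (hωpos u).le, one_div_mul_cancel hp0.ne', Real.rpow_one]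
      simp only [hω]
      rw [ENNReal.ofReal_add (by linarith)
        (mul_nonneg hθ0.le (mul_nonneg ht0.le (hh_pos s _).le)), ← mul_assoc,
        ENNReal.ofReal_mul (mul_nonneg hθ0.le ht0.le)]
      ring
    simp_rw [h1]
    rw [lintegral_add_left (by fun_prop), lintegral_const_mul _ (by fun_prop),
      lintegral_const_mul _ (by fun_prop), hA, hβ, ENNReal.ofReal_mul hθ0.le, hoft, mul_assoc,
      ENNReal.div_mul_cancel hβ0 hβt, ← add_mul, ← ENNReal.ofReal_add (by linarith) hθ0.le]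
    simp
  -- second factor
  have hsecond : ∫⁻ u, (ENNReal.ofReal (hh s (u - v) ^ l * ω u ^ (-(1 / p)))) ^ p' ≤
      ENNReal.ofReal (t ^ (-(θ * (1 / (p - 1))))) * ENNReal.ofReal c' := by
    have hp'0 : 0 < p' := hconj.symm.pos
    have h1 : ∀ u, (ENNReal.ofReal (hh s (u - v) ^ l * ω u ^ (-(1 / p)))) ^ p' =
        ENNReal.ofReal (t ^ (-(θ * (1 / (p - 1))))) *
          ENNReal.ofReal (hh s (u - v) * zeta θ (t * hh s (u - v)) ^ (1 / (p - 1))) := by
      intro u
      have hhp := hh_pos s (u - v)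
      have hkp : 0 < t * hh s (u - v) := mul_pos ht0 hhp
      rw [ENNReal.ofReal_rpow_of_nonneg
        (mul_nonneg (Real.rpow_nonneg hhp.le _) (Real.rpow_nonneg (hωpos u).le _)) hp'0.le,
        ← ENNReal.ofReal_mul (Real.rpow_nonneg ht0.le _)]
      congr 1
      have e1 : l * p' = 1 + θ * (1 / (p - 1)) := by
        rw [hl, hp', hθ, lam, th]
        have hq0 := h.q_pos
        field_simp
        ring
      have e2 : -(1 / p) * p' = -(1 / (p - 1)) := by
        rw [hp']
        field_simp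
      rw [Real.mul_rpow (Real.rpow_nonneg hhp.le _) (Real.rpow_nonneg (hωpos u).le _),
        ← Real.rpow_mul hhp.le, ← Real.rpow_mul (hωpos u).le, e1, e2,
        Real.rpow_add hhp, Real.rpow_one, zeta, Real.div_rpow (Real.rpow_nonneg hkp.le _)
          (hωpos u).le, ← Real.rpow_mul hkp.le, Real.mul_rpow ht0.le hhp.le]
      have e3 : t ^ (-(θ * (1 / (p - 1)))) * (hh s (u - v) *
          (t ^ (θ * (1 / (p - 1))) * hh s (u - v) ^ (θ * (1 / (p - 1))) /
            (1 - θ + θ * (t * hh s (u - v))) ^ (1 / (p - 1)))) =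
          (t ^ (-(θ * (1 / (p - 1)))) * t ^ (θ * (1 / (p - 1)))) * (hh s (u - v) *
            hh s (u - v) ^ (θ * (1 / (p - 1)))) * ((1 - θ + θ * (t * hh s (u - v))) ^
              (1 / (p - 1)))⁻¹ := by
        rw [div_eq_mul_inv]; ring
      rw [e3, ← Real.rpow_add ht0, neg_add_cancel, Real.rpow_zero, one_mul,
        Real.rpow_neg (hωpos u).le]
    simp_rw [h1]
    rw [lintegral_const_mul _ (by unfold zeta; fun_prop)]
    gcongr
    have h2 := lintegral_sub_right_eq_self (μ := (volume : Measure ℝ))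
      (fun w => ENNReal.ofReal (hh s w * zeta θ (t * hh s w) ^ (1 / (p - 1)))) v
    rw [h2]
    exact hc' t ht0
  have hp'inv : 1 / p' = 1 - 1 / p := by
    rw [hp', one_div_div, sub_div, div_self hp0.ne']
  rw [hfirst, hp'inv]
  have h1p : 0 ≤ 1 - 1 / p := by linarith [h.inv_p_lt]
  calc A ^ (1 / p) * (∫⁻ u, (ENNReal.ofReal (hh s (u - v) ^ l * ω u ^ (-(1 / p)))) ^ p') ^
        (1 - 1 / p)
      ≤ A ^ (1 / p) * (ENNReal.ofReal (t ^ (-(θ * (1 / (p - 1))))) * ENNReal.ofReal c') ^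
        (1 - 1 / p) := by
        gcongr
    _ = A ^ (1 / p) * ((β / A) ^ (1 - 1 / q) * ENNReal.ofReal c' ^ (1 - 1 / p)) := by
        congr 1
        rw [ENNReal.mul_rpow_of_nonneg _ _ h1p]
        congr 1
        rw [ENNReal.ofReal_rpow_of_nonneg (Real.rpow_nonneg ht0.le _) h1p, ← Real.rpow_mul ht0.le]
        have e4 : -(θ * (1 / (p - 1))) * (1 - 1 / p) = -(1 - 1 / q) := by
          rw [hθ, th]
          have hq0 := h.q_pos
          field_simp
        rw [e4, ← ENNReal.ofReal_rpow_of_pos ht0, hoft, ENNReal.rpow_neg, ← ENNReal.inv_rpow,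
          ENNReal.inv_div (Or.inl hβt) (Or.inl hβ0)]
    _ = _ := by ring

end Pool.Agent.Helper43.Hilbert
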