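import Mathlib
import Pool.Agent.Helper43.YoungStep

set_option autoImplicit false
open MeasureTheory Set
open scoped ENNReal

namespace Pool.Agent.Helper43.Hilbert

lemma young_gap {p q : ℝ} (h : Params p q) :
    ∃ C : ℝ, 0 < C ∧ C < (Real.pi / Real.sin (Real.pi * ss p q)) ^ (lam p q) ∧
      ∀ F G : ℝ → ℝ≥0∞, Measurable F → Measurable G →
        ∫⁻ v, ∫⁻ u, F u * G v * ENNReal.ofReal (hh (ss p q) (u - v) ^ (lam p q)) ≤
          ENNReal.ofReal C * (∫⁻ u, F u ^ p) ^ (1 / p) * (∫⁻ v, G v ^ q) ^ (1 / q) := by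
  have hp := h.hp
  have hq := h.hq
  have hp0 := h.p_pos
  have hq0 := h.q_pos
  have h1p : 0 < 1 - 1 / p := by linarith [h.inv_p_lt]
  have h1q : 0 < 1 - 1 / q := by linarith [h.inv_q_lt]
  obtain ⟨c', hc'0, hc'c, hc'⟩ := kernel_gap (s := ss p q) (θ := th p q) (e := 1 / (p - 1))
    h.ss_pos h.ss_lt_one h.th_pos h.th_lt_one (by have : 0 < p - 1 := by linarith
                                                  positivity)
  set s := ss p q with hs
  set l := lam p q with hl
  set c := Real.pi / Real.sin (Real.pi * s) with hc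
  have hc0 : 0 < c := by linarith
  have hll : l = (1 - 1 / p) + (1 - 1 / q) := by rw [hl, lam]; ring
  have hC : c' ^ (1 - 1 / p) * c ^ (1 - 1 / q) < c ^ l := by
    rw [hll, Real.rpow_add hc0]
    exact mul_lt_mul_of_pos_right (Real.rpow_lt_rpow hc'0.le hc'c h1p)
      (Real.rpow_pos_of_pos hc0 _)
  have hCpos : 0 < c' ^ (1 - 1 / p) * c ^ (1 - 1 / q) :=
    mul_pos (Real.rpow_pos_of_pos hc'0 _) (Real.rpow_pos_of_pos hc0 _)
  refine ⟨c' ^ (1 - 1 / p) * c ^ (1 - 1 / q), hCpos, hC, ?_⟩
  intro F G hF hG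
  have hms := measurable_hh s
  -- rewrite the left side
  have hlhs : ∀ v, ∫⁻ u, F u * G v * ENNReal.ofReal (hh s (u - v) ^ l) =
      G v * ∫⁻ u, F u * ENNReal.ofReal (hh s (u - v) ^ l) := by
    intro v
    have : Measurable (fun u => hh s (u - v)) := hms.comp (measurable_id.sub_const v)
    rw [← lintegral_const_mul _ (by fun_prop)]
    congr 1
    funext u
    ring
  simp_rw [hlhs]
  set A := ∫⁻ u, F u ^ p with hA
  set B := ∫⁻ v, G v ^ q with hB
  by_cases hA0 : A = 0
  · have hF0 : F =ᵐ[volume] 0 := by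
      have h1 := (lintegral_eq_zero_iff (hF.pow_const p)).mp hA0
      filter_upwards [h1] with u hu
      simp only [Pi.zero_apply] at hu ⊢
      exact (ENNReal.rpow_eq_zero_iff_of_pos hp0).mp hu
    have h2 : ∀ v, ∫⁻ u, F u * ENNReal.ofReal (hh s (u - v) ^ l) = 0 := by
      intro v
      have : (fun u => F u * ENNReal.ofReal (hh s (u - v) ^ l)) =ᵐ[volume] 0 := by
        filter_upwards [hF0] with u hu
        simp [hu]
      rw [lintegral_congr_ae this]
      simp
    simp_rw [h2]
    simp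
  by_cases hB0 : B = 0
  · have hG0 : G =ᵐ[volume] 0 := by
      have h1 := (lintegral_eq_zero_iff (hG.pow_const q)).mp hB0
      filter_upwards [h1] with u hu
      simp only [Pi.zero_apply] at hu ⊢
      exact (ENNReal.rpow_eq_zero_iff_of_pos hq0).mp hu
    have : (fun v => G v * ∫⁻ u, F u * ENNReal.ofReal (hh s (u - v) ^ l)) =ᵐ[volume] 0 := by
      filter_upwards [hG0] with v hv
      simp [hv]
    rw [lintegral_congr_ae this]
    simp
  by_cases hAt : A = ∞
  · rw [hAt, ENNReal.top_rpow_of_pos (by positivity), ENNReal.mul_top, ENNReal.top_mul]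
    · exact le_top
    · intro h3
      rcases (ENNReal.rpow_eq_zero_iff.mp h3) with ⟨h4, _⟩ | ⟨_, h4⟩
      · exact hB0 h4
      · have : 0 < 1 / q := by positivity
        linarith
    · simp only [ne_eq, ENNReal.ofReal_eq_zero, not_le]
      exact hCpos
  -- main case
  set β : ℝ → ℝ≥0∞ := fun v => ∫⁻ u, F u ^ p * ENNReal.ofReal (hh s (u - v)) with hβ
  have hβmeas2 : Measurable (fun z : ℝ × ℝ => F z.2 ^ p * ENNReal.ofReal (hh s (z.2 - z.1))) := by
    fun_prop
  have hβint : ∫⁻ v, β v = A * ENNReal.ofReal c := by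
    simp only [hβ]
    rw [lintegral_lintegral_swap (by
      exact hβmeas2.aemeasurable)]
    have h3 : ∀ u, ∫⁻ v, F u ^ p * ENNReal.ofReal (hh s (u - v)) =
        F u ^ p * ENNReal.ofReal c := by
      intro u
      have hm : Measurable (fun v => hh s (u - v)) := hms.comp (measurable_id.const_sub u)
      rw [lintegral_const_mul _ (by fun_prop)]
      congr 1
      rw [lintegral_sub_left_eq_self (μ := (volume : Measure ℝ))
        (fun w => ENNReal.ofReal (hh s w)) u]
      exact lintegral_hh h.ss_pos h.ss_lt_one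
    simp_rw [h3]
    rw [lintegral_mul_const _ (by fun_prop)]
  have hβm : Measurable β := by
    exact hβmeas2.lintegral_prod_right' (ν := (volume : Measure ℝ))
  have hβt : ∀ᵐ v, β v < ∞ := by
    apply ae_lt_top hβm
    rw [hβint]
    exact ENNReal.mul_ne_top hAt ENNReal.ofReal_ne_top
  have hβ0 : ∀ v, β v ≠ 0 := by
    intro v hv
    have hm : Measurable (fun u => F u ^ p * ENNReal.ofReal (hh s (u - v))) := by
      have : Measurable (fun u => hh s (u - v)) := hms.comp (measurable_id.sub_const v)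
      fun_prop
    have h3 := (lintegral_eq_zero_iff hm).mp hv
    apply hA0
    rw [hA, lintegral_eq_zero_iff (hF.pow_const p)]
    filter_upwards [h3] with u hu
    simp only [Pi.zero_apply, mul_eq_zero] at hu ⊢
    rcases hu with hu | hu
    · exact hu
    · have := hh_pos s (u - v)
      rw [ENNReal.ofReal_eq_zero] at hu
      linarith
  set T : ℝ → ℝ≥0∞ := fun v => ∫⁻ u, F u * ENNReal.ofReal (hh s (u - v) ^ l) with hT
  have hTm : Measurable T := by
    have : Measurable (fun z : ℝ × ℝ => F z.2 * ENNReal.ofReal (hh s (z.2 - z.1) ^ l)) := by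
      fun_prop
    exact this.lintegral_prod_right' (ν := (volume : Measure ℝ))
  have hTle : ∀ᵐ v, T v ≤ A ^ (1 / p) * (β v / A) ^ (1 - 1 / q) *
      ENNReal.ofReal c' ^ (1 - 1 / p) := by
    filter_upwards [hβt] with v hv
    exact young_point h hc' hF rfl hA0 hAt v rfl (hβ0 v) hv.ne
  set q' := q / (q - 1) with hq'
  have hconj : q.HolderConjugate q' := by
    rw [hq']
    exact Real.HolderConjugate.conjExponent hq
  have hq'0 : 0 < q' := hconj.symm.pos
  have hq'inv : 1 / q' = 1 - 1 / q := by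
    rw [hq', one_div_div, sub_div, div_self hq0.ne']
  have hq'mul : (1 - 1 / q) * q' = 1 := by
    rw [← hq'inv]; field_simp
  have hholder := ENNReal.lintegral_mul_le_Lp_mul_Lq volume hconj hG.aemeasurable
    hTm.aemeasurable
  simp only [Pi.mul_apply] at hholder
  refine hholder.trans ?_
  have hTint : ∫⁻ v, T v ^ q' ≤ (A ^ (1 / p) * ENNReal.ofReal c' ^ (1 - 1 / p)) ^ q' *
      ENNReal.ofReal c := by
    calc ∫⁻ v, T v ^ q' ≤ ∫⁻ v, (A ^ (1 / p) * ENNReal.ofReal c' ^ (1 - 1 / p)) ^ q' *
          (β v * A⁻¹) := by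
          apply lintegral_mono_ae
          filter_upwards [hTle] with v hv
          calc T v ^ q' ≤ (A ^ (1 / p) * (β v / A) ^ (1 - 1 / q) *
                ENNReal.ofReal c' ^ (1 - 1 / p)) ^ q' := by gcongr
            _ = (A ^ (1 / p) * ENNReal.ofReal c' ^ (1 - 1 / p)) ^ q' * (β v * A⁻¹) := by
                have e1 : A ^ (1 / p) * (β v / A) ^ (1 - 1 / q) *
                  ENNReal.ofReal c' ^ (1 - 1 / p) = (A ^ (1 / p) *
                    ENNReal.ofReal c' ^ (1 - 1 / p)) * (β v / A) ^ (1 - 1 / q) := by ring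
                rw [e1, ENNReal.mul_rpow_of_nonneg _ _ hq'0.le]
                congr 1
                rw [← ENNReal.rpow_mul, hq'mul, ENNReal.rpow_one, div_eq_mul_inv]
      _ = (A ^ (1 / p) * ENNReal.ofReal c' ^ (1 - 1 / p)) ^ q' * ENNReal.ofReal c := by
          rw [lintegral_const_mul _ (by fun_prop), lintegral_mul_const _ hβm, hβint]
          congr 1
          rw [mul_comm A, mul_assoc, ENNReal.mul_inv_cancel hA0 hAt, mul_one]
  have hfin : (∫⁻ v, T v ^ q') ^ (1 / q') ≤
      ENNReal.ofReal (c' ^ (1 - 1 / p) * c ^ (1 - 1 / q)) * A ^ (1 / p) := by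
    calc (∫⁻ v, T v ^ q') ^ (1 / q') ≤ ((A ^ (1 / p) * ENNReal.ofReal c' ^ (1 - 1 / p)) ^ q' *
          ENNReal.ofReal c) ^ (1 / q') := by gcongr
      _ = A ^ (1 / p) * ENNReal.ofReal c' ^ (1 - 1 / p) * ENNReal.ofReal c ^ (1 - 1 / q) := by
          rw [ENNReal.mul_rpow_of_nonneg _ _ (by positivity), ← ENNReal.rpow_mul,
            mul_one_div_cancel hq'0.ne', ENNReal.rpow_one, hq'inv]
      _ = _ := by
          rw [ENNReal.ofReal_mul (Real.rpow_nonneg hc'0.le _),
            ENNReal.ofReal_rpow_of_pos hc'0, ENNReal.ofReal_rpow_of_pos hc0]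
          ring
  calc B ^ (1 / q) * (∫⁻ v, T v ^ q') ^ (1 / q')
      ≤ B ^ (1 / q) * (ENNReal.ofReal (c' ^ (1 - 1 / p) * c ^ (1 - 1 / q)) * A ^ (1 / p)) := by
        gcongr
    _ = _ := by ring

/-- The integral inequality on the half line with a constant below the classical one. -/
lemma integral_gap {p q : ℝ} (h : Params p q) :
    ∃ C : ℝ, 0 < C ∧ C < (Real.pi / Real.sin (Real.pi * ss p q)) ^ (lam p q) ∧
      ∀ f g : ℝ → ℝ≥0∞, Measurable f → Measurable g →
        ∫⁻ x in Ioi (0 : ℝ), ∫⁻ y in Ioi (0 : ℝ),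
            f x * g y * ENNReal.ofReal ((x + y) ^ (-lam p q)) ≤
          ENNReal.ofReal C * (∫⁻ x in Ioi (0 : ℝ), f x ^ p) ^ (1 / p) *
            (∫⁻ y in Ioi (0 : ℝ), g y ^ q) ^ (1 / q) := by
  obtain ⟨C, hC0, hC1, hC⟩ := young_gap h
  refine ⟨C, hC0, hC1, ?_⟩
  intro f g hf hg
  have hp0 := h.p_pos
  have hq0 := h.q_pos
  set l := lam p q with hl
  set s := ss p q with hs
  have hms := measurable_hh s
  set F : ℝ → ℝ≥0∞ := fun u => f (Real.exp u) * ENNReal.ofReal (Real.exp (u / p)) with hF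
  set G : ℝ → ℝ≥0∞ := fun v => g (Real.exp v) * ENNReal.ofReal (Real.exp (v / q)) with hG
  have hFm : Measurable F := by
    have : Measurable (fun u => f (Real.exp u)) := hf.comp Real.measurable_exp
    fun_prop
  have hGm : Measurable G := by
    have : Measurable (fun u => g (Real.exp u)) := hg.comp Real.measurable_exp
    fun_prop
  have key := hC F G hFm hGm
  have hFp : ∫⁻ u, F u ^ p = ∫⁻ x in Ioi (0 : ℝ), f x ^ p := by
    rw [lintegral_Ioi_eq_exp]
    congr 1
    funext u
    simp only [hF]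
    rw [ENNReal.mul_rpow_of_nonneg _ _ hp0.le, ENNReal.ofReal_rpow_of_pos (Real.exp_pos _),
      ← Real.exp_mul, div_mul_cancel₀ _ hp0.ne', mul_comm]
  have hGq : ∫⁻ u, G u ^ q = ∫⁻ x in Ioi (0 : ℝ), g x ^ q := by
    rw [lintegral_Ioi_eq_exp]
    congr 1
    funext u
    simp only [hG]
    rw [ENNReal.mul_rpow_of_nonneg _ _ hq0.le, ENNReal.ofReal_rpow_of_pos (Real.exp_pos _),
      ← Real.exp_mul, div_mul_cancel₀ _ hq0.ne', mul_comm]
  rw [hFp, hGq] at key
  refine le_trans (le_of_eq ?_) key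
  rw [lintegral_lintegral_swap]
  · rw [lintegral_Ioi_eq_exp]
    congr 1
    funext v
    rw [lintegral_Ioi_eq_exp, ← lintegral_const_mul']
    · congr 1
      funext u
      simp only [hF, hG]
      have e1 : hh s (u - v) ^ l = Real.exp ((1 - 1 / p) * u) * Real.exp ((1 - 1 / q) * v) *
          (Real.exp u + Real.exp v) ^ (-l) := by
        have e2 : hh s (u - v) = Real.exp (s * u + (1 - s) * v) * (Real.exp u + Real.exp v)⁻¹ := by
          unfold hh
          have e3 : (Real.exp u + Real.exp v) = Real.exp v * (1 + Real.exp (u - v)) := by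
            rw [mul_add, ← Real.exp_add]; ring_nf
          rw [e3, mul_inv, ← mul_assoc, ← Real.exp_neg, ← Real.exp_add, div_eq_mul_inv]
          congr 2
          ring
        rw [e2, Real.mul_rpow (Real.exp_pos _).le (by positivity), ← Real.exp_mul,
          Real.inv_rpow (by positivity), ← Real.rpow_neg (by positivity), ← Real.exp_add]
        congr 2
        have e4 := h.lam_mul_ss
        have e5 := h.lam_mul_one_sub_ss
        rw [← hl, ← hs] at e4 e5
        rw [← e4, ← e5]; ring
      rw [e1, ENNReal.ofReal_mul (by positivity), ENNReal.ofReal_mul (by positivity)]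
      have e6 : Real.exp u = Real.exp (u / p) * Real.exp ((1 - 1 / p) * u) := by
        rw [← Real.exp_add]; congr 1; ring
      have e7 : Real.exp v = Real.exp (v / q) * Real.exp ((1 - 1 / q) * v) := by
        rw [← Real.exp_add]; congr 1; ring
      have e8 : ENNReal.ofReal (Real.exp u) = ENNReal.ofReal (Real.exp (u / p)) *
          ENNReal.ofReal (Real.exp ((1 - 1 / p) * u)) := by
        rw [← ENNReal.ofReal_mul (by positivity), ← e6]
      have e9 : ENNReal.ofReal (Real.exp v) = ENNReal.ofReal (Real.exp (v / q)) *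
          ENNReal.ofReal (Real.exp ((1 - 1 / q) * v)) := by
        rw [← ENNReal.ofReal_mul (by positivity), ← e7]
      rw [e8, e9]
      ring
    · exact ENNReal.ofReal_ne_top
  · exact Measurable.aemeasurable (by fun_prop)

end Pool.Agent.Helper43.Hilbert
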