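import Mathlib
import Pool.Agent.Helper43.YoungFinal

set_option autoImplicit false
open MeasureTheory Set
open scoped ENNReal

namespace Pool.Agent.Helper43.Hilbert

lemma ceil_of_mem {x : ℝ} {n : ℕ} (hx : x ∈ Ioc (n : ℝ) (n + 1)) : ⌈x⌉₊ - 1 = n := by
  have : ⌈x⌉₊ = n + 1 := by
    rw [Nat.ceil_eq_iff (by omega)]
    constructor
    · simpa using hx.1
    · push_cast; exact hx.2
  omega

lemma Ioi_eq_iUnion : Ioi (0 : ℝ) = ⋃ n : ℕ, Ioc (n : ℝ) (n + 1) := by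
  ext x
  simp only [mem_Ioi, mem_iUnion, mem_Ioc]
  constructor
  · intro hx
    have h1 : 0 < ⌈x⌉₊ := Nat.ceil_pos.mpr hx
    obtain ⟨n, hn⟩ : ∃ n, ⌈x⌉₊ = n + 1 := ⟨⌈x⌉₊ - 1, by omega⟩
    rw [Nat.ceil_eq_iff (by omega)] at hn
    refine ⟨n, ?_, ?_⟩
    · simpa using hn.1
    · have := hn.2; push_cast at this; exact this
  · rintro ⟨n, hn, -⟩
    exact lt_of_le_of_lt (Nat.cast_nonneg n) hn

lemma lintegral_Ioi_eq_tsum (ψ : ℝ → ℝ≥0∞) :
    ∫⁻ x in Ioi (0 : ℝ), ψ x = ∑' n : ℕ, ∫⁻ x in Ioc (n : ℝ) (n + 1), ψ x := by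
  rw [Ioi_eq_iUnion]
  apply lintegral_iUnion
  · intro n; exact measurableSet_Ioc
  · have := Monotone.pairwise_disjoint_on_Ioc_succ (f := fun n : ℕ => (n : ℝ)) Nat.mono_cast
    simpa using this

lemma series_gap {p q : ℝ} (h : Params p q) :
    ∃ C : ℝ, 0 < C ∧ C < (Real.pi / Real.sin (Real.pi * ss p q)) ^ (lam p q) ∧
      ∀ a b : ℕ → ℝ≥0∞,
        ∑' m : ℕ, ∑' n : ℕ, a m * b n *
            ENNReal.ofReal ((((m + 1 : ℕ) : ℝ) + ((n + 1 : ℕ) : ℝ)) ^ (-lam p q)) ≤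
          ENNReal.ofReal C * (∑' m, a m ^ p) ^ (1 / p) * (∑' n, b n ^ q) ^ (1 / q) := by
  obtain ⟨C, hC0, hC1, hC⟩ := integral_gap h
  refine ⟨C, hC0, hC1, ?_⟩
  intro a b
  have hstep : ∀ c : ℕ → ℝ≥0∞, Measurable (fun x : ℝ => c (⌈x⌉₊ - 1)) := by
    intro c
    exact (measurable_from_top (f := fun n : ℕ => c (n - 1))).comp Nat.measurable_ceil
  have hnorm : ∀ (c : ℕ → ℝ≥0∞) (r : ℝ),
      ∫⁻ x in Ioi (0 : ℝ), (c (⌈x⌉₊ - 1)) ^ r = ∑' n, c n ^ r := by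
    intro c r
    rw [lintegral_Ioi_eq_tsum]
    congr 1
    funext n
    rw [setLIntegral_congr_fun (g := fun _ => c n ^ r) measurableSet_Ioc
      (fun x hx => by simp only [ceil_of_mem hx])]
    simp
  have key := hC _ _ (hstep a) (hstep b)
  rw [hnorm, hnorm] at key
  refine le_trans ?_ key
  have hl := h.lam_pos
  rw [lintegral_Ioi_eq_tsum]
  refine ENNReal.tsum_le_tsum fun m => ?_
  have h1 : ∀ x ∈ Ioc (m : ℝ) (m + 1), (∑' n : ℕ, a m * b n *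
      ENNReal.ofReal ((((m + 1 : ℕ) : ℝ) + ((n + 1 : ℕ) : ℝ)) ^ (-lam p q))) ≤
      ∫⁻ y in Ioi (0 : ℝ), a (⌈x⌉₊ - 1) * b (⌈y⌉₊ - 1) * ENNReal.ofReal ((x + y) ^ (-lam p q)) := by
    intro x hx
    rw [lintegral_Ioi_eq_tsum, ceil_of_mem hx]
    refine ENNReal.tsum_le_tsum fun n => ?_
    have h2 : ∀ y ∈ Ioc (n : ℝ) (n + 1), a m * b n *
        ENNReal.ofReal ((((m + 1 : ℕ) : ℝ) + ((n + 1 : ℕ) : ℝ)) ^ (-lam p q)) ≤
        a m * b (⌈y⌉₊ - 1) * ENNReal.ofReal ((x + y) ^ (-lam p q)) := by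
      intro y hy
      rw [ceil_of_mem hy]
      refine mul_le_mul' le_rfl (ENNReal.ofReal_le_ofReal ?_)
      apply Real.rpow_le_rpow_of_nonpos
      · have hm : (0 : ℝ) ≤ m := Nat.cast_nonneg m
        have hn : (0 : ℝ) ≤ n := Nat.cast_nonneg n
        linarith [hx.1, hy.1]
      · push_cast
        linarith [hx.2, hy.2]
      · linarith
    calc a m * b n * ENNReal.ofReal ((((m + 1 : ℕ) : ℝ) + ((n + 1 : ℕ) : ℝ)) ^ (-lam p q))
        = ∫⁻ y in Ioc (n : ℝ) (n + 1), a m * b n *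
          ENNReal.ofReal ((((m + 1 : ℕ) : ℝ) + ((n + 1 : ℕ) : ℝ)) ^ (-lam p q)) := by simp
      _ ≤ _ := setLIntegral_mono' measurableSet_Ioc h2
  calc (∑' n : ℕ, a m * b n *
      ENNReal.ofReal ((((m + 1 : ℕ) : ℝ) + ((n + 1 : ℕ) : ℝ)) ^ (-lam p q)))
      = ∫⁻ x in Ioc (m : ℝ) (m + 1), (∑' n : ℕ, a m * b n *
      ENNReal.ofReal ((((m + 1 : ℕ) : ℝ) + ((n + 1 : ℕ) : ℝ)) ^ (-lam p q))) := by simp
    _ ≤ _ := setLIntegral_mono' measurableSet_Ioc h1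

/-- The constant `K(p,q)` of the problem in terms of our parameters. -/
lemma K_eq {p q : ℝ} (h : Params p q) :
    Real.pi ^ (2 - 1 / p - 1 / q) *
      (1 / Real.sin (Real.pi * (q - 1) / ((2 - 1 / p - 1 / q) * q))) ^ (2 - 1 / p - 1 / q) =
    (Real.pi / Real.sin (Real.pi * ss p q)) ^ (lam p q) := by
  have hq0 := h.q_pos
  have hl := h.lam_pos
  have e1 : Real.pi * (q - 1) / ((2 - 1 / p - 1 / q) * q) = Real.pi - Real.pi * ss p q := by
    have e2 : 1 - ss p q = (1 - 1 / q) / lam p q := by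
      rw [eq_div_iff hl.ne', mul_comm]; exact h.lam_mul_one_sub_ss
    have e3 : Real.pi - Real.pi * ss p q = Real.pi * (1 - ss p q) := by ring
    rw [e3, e2]
    have e4 : (2 - 1 / p - 1 / q) = lam p q := rfl
    rw [e4]
    have e5 : (1 - 1 / q) = (q - 1) / q := by rw [sub_div, div_self hq0.ne']
    rw [e5]
    field_simp
  rw [e1, Real.sin_pi_sub]
  have hsin : 0 < Real.sin (Real.pi * ss p q) := by
    apply Real.sin_pos_of_pos_of_lt_pi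
    · exact mul_pos Real.pi_pos h.ss_pos
    · have := h.ss_lt_one
      nlinarith [Real.pi_pos]
  rw [← Real.mul_rpow Real.pi_pos.le (by positivity)]
  congr 1
  rw [mul_one_div]

end Pool.Agent.Helper43.Hilbert
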