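import Mathlib

set_option autoImplicit false

namespace Pool.Agent.Helper43.Snoha

/-- Sizes of the tiles. -/
def S : ℕ → ℤ
  | 0 => 2
  | (i + 1) => 4 * S i * (S i + i + 1) + 2 * S i

/-- Lengths of the zero runs. -/
def L : ℕ → ℤ
  | 0 => 0
  | (i + 1) => S i + i + 1

lemma S_ge_two (i : ℕ) : 2 ≤ S i := by
  induction i with
  | zero => simp [S]
  | succ i ih =>
    have h : (0 : ℤ) ≤ (i : ℤ) := Int.natCast_nonneg i
    simp only [S]
    nlinarith

lemma L_ge (i : ℕ) : (i : ℤ) ≤ L i := by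
  cases i with
  | zero => simp [L]
  | succ i =>
    have := S_ge_two i
    simp only [L]
    push_cast
    linarith

/-- The cell `(a,b)` has, inside the rectangle, a run of `L j` zeros in its row or in its column,
at distance at most `2 * S j`. -/
def OK (j : ℕ) (P : ℤ → ℤ → Bool) (x0 x1 y0 y1 a b : ℤ) : Prop :=
  (∃ a', x0 ≤ a' ∧ a' + L j ≤ x1 ∧ |a' - a| ≤ 2 * S j ∧
    ∀ c, a' ≤ c → c < a' + L j → P c b = false) ∨
  (∃ b', y0 ≤ b' ∧ b' + L j ≤ y1 ∧ |b' - b| ≤ 2 * S j ∧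
    ∀ c, b' ≤ c → c < b' + L j → P a c = false)

/-- Good pattern up to scale `i` on a rectangle. -/
def Good (i : ℕ) (P : ℤ → ℤ → Bool) (x0 x1 y0 y1 : ℤ) : Prop :=
  ∀ a b, x0 ≤ a → a < x1 → y0 ≤ b → b < y1 →
    (∃ a' b', x0 ≤ a' ∧ a' < x1 ∧ y0 ≤ b' ∧ b' < y1 ∧ |a' - a| ≤ 1 ∧ |b' - b| ≤ 1 ∧
      P a' b' = true) ∧
    ∀ j ≤ i, P a b = true → OK j P x0 x1 y0 y1 a b

lemma OK.transpose {j : ℕ} {P : ℤ → ℤ → Bool} {x0 x1 y0 y1 a b : ℤ}
    (h : OK j P x0 x1 y0 y1 a b) : OK j (fun s t => P t s) y0 y1 x0 x1 b a :=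
  Or.symm h

lemma Good.transpose {i : ℕ} {P : ℤ → ℤ → Bool} {x0 x1 y0 y1 : ℤ}
    (h : Good i P x0 x1 y0 y1) : Good i (fun s t => P t s) y0 y1 x0 x1 := by
  intro a b ha ha' hb hb'
  obtain ⟨⟨a', b', h1, h2, h3, h4, h5, h6, h7⟩, h8⟩ := h b a hb hb' ha ha'
  refine ⟨⟨b', a', h3, h4, h1, h2, h6, h5, h7⟩, ?_⟩
  intro j hj hP
  exact (h8 j hj hP).transpose

/-- Transfer of goodness at one cell from a sub-rectangle on which the patterns agree. -/
lemma cell_mono {i : ℕ} {P Q : ℤ → ℤ → Bool} {x0 x1 y0 y1 u0 u1 v0 v1 : ℤ}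
    (hu0 : x0 ≤ u0) (hu1 : u1 ≤ x1) (hv0 : y0 ≤ v0) (hv1 : v1 ≤ y1)
    (hPQ : ∀ a b, u0 ≤ a → a < u1 → v0 ≤ b → b < v1 → Q a b = P a b)
    (h : Good i P u0 u1 v0 v1) {a b : ℤ}
    (ha : u0 ≤ a) (ha' : a < u1) (hb : v0 ≤ b) (hb' : b < v1) :
    (∃ a' b', x0 ≤ a' ∧ a' < x1 ∧ y0 ≤ b' ∧ b' < y1 ∧ |a' - a| ≤ 1 ∧ |b' - b| ≤ 1 ∧
      Q a' b' = true) ∧
    ∀ j ≤ i, Q a b = true → OK j Q x0 x1 y0 y1 a b := by
  obtain ⟨⟨a', b', h1, h2, h3, h4, h5, h6, h7⟩, h8⟩ := h a b ha ha' hb hb'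
  refine ⟨⟨a', b', by linarith, by linarith, by linarith, by linarith, h5, h6, ?_⟩, ?_⟩
  · rw [hPQ a' b' h1 h2 h3 h4]; exact h7
  · intro j hj hQ
    rw [hPQ a b ha ha' hb hb'] at hQ
    rcases h8 j hj hQ with ⟨c', g1, g2, g3, g4⟩ | ⟨c', g1, g2, g3, g4⟩
    · left
      refine ⟨c', by linarith, by linarith, g3, ?_⟩
      intro c hc hc'
      rw [hPQ c b (by linarith) (by linarith) hb hb']
      exact g4 c hc hc'
    · right
      refine ⟨c', by linarith, by linarith, g3, ?_⟩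
      intro c hc hc'
      rw [hPQ a c ha ha' (by linarith) (by linarith)]
      exact g4 c hc hc'

/-- Gluing along a vertical cut. -/
lemma Good.glueX {i : ℕ} {P Q : ℤ → ℤ → Bool} {x0 x x1 y0 y1 : ℤ} (h0 : x0 ≤ x) (h1 : x ≤ x1)
    (hP : Good i P x0 x y0 y1) (hQ : Good i Q x x1 y0 y1) :
    Good i (fun a b => if a < x then P a b else Q a b) x0 x1 y0 y1 := by
  intro a b ha ha' hb hb'
  by_cases hx : a < x
  · exact cell_mono (P := P) le_rfl h1 le_rfl le_rfl
      (fun s t _ hs' _ _ => by simp [hs']) hP ha hx hb hb'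
  · push Not at hx
    exact cell_mono (P := Q) h0 le_rfl le_rfl le_rfl
      (fun s t hs _ _ _ => by simp [not_lt.mpr hs]) hQ hx ha' hb hb'

/-- Every row of the rectangle contains a run of `l` zeros. -/
def Rows (l : ℤ) (P : ℤ → ℤ → Bool) (x0 x1 y0 y1 : ℤ) : Prop :=
  ∀ b, y0 ≤ b → b < y1 → ∃ a', x0 ≤ a' ∧ a' + l ≤ x1 ∧ ∀ c, a' ≤ c → c < a' + l → P c b = false

/-- Gluing along a horizontal cut, with rows. -/
lemma glueY {i : ℕ} {l : ℤ} {P Q : ℤ → ℤ → Bool} {x0 x1 y0 y y1 : ℤ} (h0 : y0 ≤ y) (h1 : y ≤ y1)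
    (hP : Good i P x0 x1 y0 y) (hQ : Good i Q x0 x1 y y1)
    (hP' : Rows l P x0 x1 y0 y) (hQ' : Rows l Q x0 x1 y y1) :
    Good i (fun a b => if b < y then P a b else Q a b) x0 x1 y0 y1 ∧
    Rows l (fun a b => if b < y then P a b else Q a b) x0 x1 y0 y1 := by
  constructor
  · exact (Good.glueX h0 h1 hP.transpose hQ.transpose).transpose
  · intro b hb hb'
    by_cases hy : b < y
    · obtain ⟨a', g1, g2, g3⟩ := hP' b hb hy
      exact ⟨a', g1, g2, fun c hc hc' => by simp [hy, g3 c hc hc']⟩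
    · push Not at hy
      obtain ⟨a', g1, g2, g3⟩ := hQ' b hy hb'
      exact ⟨a', g1, g2, fun c hc hc' => by simp [not_lt.mpr hy, g3 c hc hc']⟩

/-- The main claim at level `i`, with a prescribed zero column. -/
def ClaimV (i : ℕ) : Prop :=
  ∀ x0 x1 y0 y1 n : ℤ, x0 + S i ≤ x1 → y0 + S i ≤ y1 → x0 ≤ n → n < x1 →
    ∃ P : ℤ → ℤ → Bool, (∀ b, y0 ≤ b → b < y1 → P n b = false) ∧ Good i P x0 x1 y0 y1

lemma ClaimV.transpose {i : ℕ} (h : ClaimV i) :
    ∀ x0 x1 y0 y1 m : ℤ, x0 + S i ≤ x1 → y0 + S i ≤ y1 → y0 ≤ m → m < y1 →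
    ∃ P : ℤ → ℤ → Bool, (∀ a, x0 ≤ a → a < x1 → P a m = false) ∧ Good i P x0 x1 y0 y1 := by
  intro x0 x1 y0 y1 m h0 h1 hm hm'
  obtain ⟨P, hP, hG⟩ := h y0 y1 x0 x1 m h1 h0 hm hm'
  exact ⟨fun s t => P t s, hP, hG.transpose⟩

lemma claim_zero : ClaimV 0 := by
  intro x0 x1 y0 y1 n h0 h1 hn hn'
  have hS : S 0 = 2 := rfl
  rw [hS] at h0 h1
  refine ⟨fun a _ => decide (a ≠ n), by intro b _ _; simp, ?_⟩
  intro a b ha ha' hb hb'
  constructor
  · by_cases han : a = n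
    · by_cases hx : n + 1 < x1
      · refine ⟨n + 1, b, by linarith, hx, hb, hb', ?_, by simp, by simp⟩
        rw [han]; simp
      · refine ⟨n - 1, b, by linarith, by linarith, hb, hb', ?_, by simp, by simp⟩
        rw [han]; simp
    · exact ⟨a, b, ha, ha', hb, hb', by simp, by simp, by simp [han]⟩
  · intro j hj _
    have hj0 : j = 0 := Nat.le_zero.mp hj
    subst hj0
    left
    refine ⟨a, ha, ?_, ?_, ?_⟩
    · simp only [L]; linarith
    · simp [S]
    · intro c hc hc'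
      simp only [L] at hc'
      exfalso; linarith

/-- A block of height in `[S i, 2 S i)` and width `2 S i * l` in which every row has a run of
`l` zeros. -/
lemma block {i : ℕ} (h : ClaimV i) {l : ℤ} (hl : S i ≤ l) (x0 y0 y1 : ℤ) (hy : y0 + S i ≤ y1)
    (hy' : y1 < y0 + 2 * S i) :
    ∃ P : ℤ → ℤ → Bool, Good i P x0 (x0 + 2 * S i * l) y0 y1 ∧
      Rows l P x0 (x0 + 2 * S i * l) y0 y1 := by
  have hS := S_ge_two i
  have hlpos : 0 < l := by linarith
  have key : ∀ t : ℤ, ∃ P : ℤ → ℤ → Bool,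
      (∀ a, x0 + t * l ≤ a → a < x0 + t * l + l → P a (min (y0 + max t 0) (y1 - 1)) = false) ∧
      Good i P (x0 + t * l) (x0 + t * l + l) y0 y1 := by
    intro t
    apply h.transpose
    · linarith
    · exact hy
    · have := le_max_right t 0
      apply le_min <;> linarith
    · have := min_le_right (y0 + max t 0) (y1 - 1)
      linarith
  choose Q hQ1 hQ2 using key
  have tile : ∀ a t : ℤ, x0 + t * l ≤ a → a < x0 + t * l + l → (a - x0) / l = t := by
    intro a t h1 h2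
    rw [Int.ediv_eq_iff_of_pos hlpos]
    constructor <;> linarith
  refine ⟨fun a b => Q ((a - x0) / l) a b, ?_, ?_⟩
  · intro a b ha ha' hb hb'
    set t := (a - x0) / l with ht
    have h1 : x0 + t * l ≤ a := by
      have := Int.ediv_mul_le (a - x0) (ne_of_gt hlpos)
      linarith
    have h2 : a < x0 + t * l + l := by
      have := Int.lt_ediv_add_one_mul_self (a - x0) hlpos
      rw [← ht] at this
      linarith
    have ht0 : 0 ≤ t := Int.ediv_nonneg (by linarith) hlpos.le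
    have ht1 : t < 2 * S i := by
      by_contra hcon
      push Not at hcon
      have : 2 * S i * l ≤ t * l := mul_le_mul_of_nonneg_right hcon hlpos.le
      linarith
    refine cell_mono (P := Q t) (u0 := x0 + t * l) (u1 := x0 + t * l + l) (v0 := y0) (v1 := y1)
      ?_ ?_ le_rfl le_rfl ?_ (hQ2 t) h1 h2 hb hb'
    · have := mul_nonneg ht0 hlpos.le
      linarith
    · have : (t + 1) * l ≤ 2 * S i * l := mul_le_mul_of_nonneg_right (by linarith) hlpos.le
      linarith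
    · intro s r hs hs' _ _
      simp only [tile s t hs hs']
  · intro b hb hb'
    refine ⟨x0 + (b - y0) * l, ?_, ?_, ?_⟩
    · have := mul_nonneg (sub_nonneg.mpr hb) hlpos.le
      linarith
    · have : (b - y0 + 1) * l ≤ 2 * S i * l := mul_le_mul_of_nonneg_right (by linarith) hlpos.le
      linarith
    · intro c hc hc'
      simp only [tile c (b - y0) hc hc']
      have h3 := hQ1 (b - y0) c hc hc'
      have h4 : min (y0 + max (b - y0) 0) (y1 - 1) = b := by
        rw [max_eq_left (by linarith)]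
        rw [min_eq_left (by linarith)]
        ring
      rwa [h4] at h3

/-- Same as `block`, for arbitrary heights. -/
lemma tower {i : ℕ} (h : ClaimV i) {l : ℤ} (hl : S i ≤ l) (x0 y1 : ℤ) :
    ∀ (N : ℕ) (y0 : ℤ), y0 + S i ≤ y1 → y1 < y0 + (N + 2) * S i →
    ∃ P : ℤ → ℤ → Bool, Good i P x0 (x0 + 2 * S i * l) y0 y1 ∧
      Rows l P x0 (x0 + 2 * S i * l) y0 y1 := by
  have hS := S_ge_two i
  intro N
  induction N with
  | zero =>
    intro y0 hy hy'
    exact block h hl x0 y0 y1 hy (by push_cast at hy'; linarith)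
  | succ N ih =>
    intro y0 hy hy'
    by_cases hc : y1 < y0 + 2 * S i
    · exact block h hl x0 y0 y1 hy hc
    · push Not at hc
      obtain ⟨P, hP1, hP2⟩ := block h hl x0 y0 (y0 + S i) le_rfl (by linarith)
      obtain ⟨Q, hQ1, hQ2⟩ := ih (y0 + S i) (by linarith) (by push_cast at hy'; linarith)
      obtain ⟨h1, h2⟩ := glueY (by linarith) (by linarith) hP1 hQ1 hP2 hQ2
      exact ⟨_, h1, h2⟩

lemma tower' {i : ℕ} (h : ClaimV i) {l : ℤ} (hl : S i ≤ l) (x0 y0 y1 : ℤ) (hy : y0 + S i ≤ y1) :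
    ∃ P : ℤ → ℤ → Bool, Good i P x0 (x0 + 2 * S i * l) y0 y1 ∧
      Rows l P x0 (x0 + 2 * S i * l) y0 y1 := by
  have hS := S_ge_two i
  refine tower h hl x0 y1 (y1 - y0).toNat y0 hy ?_
  have h1 : ((y1 - y0).toNat : ℤ) = y1 - y0 := Int.toNat_of_nonneg (by linarith)
  rw [h1]
  nlinarith

/-- If all the rows have runs of length `L (i+1)` and the width is at most `2 S (i+1)`, then
goodness improves by one level. -/
lemma Good.succ {i : ℕ} {P : ℤ → ℤ → Bool} {x0 x1 y0 y1 : ℤ} (h : Good i P x0 x1 y0 y1)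
    (hR : Rows (L (i + 1)) P x0 x1 y0 y1) (hw : x1 ≤ x0 + 2 * S (i + 1)) :
    Good (i + 1) P x0 x1 y0 y1 := by
  intro a b ha ha' hb hb'
  obtain ⟨h1, h2⟩ := h a b ha ha' hb hb'
  refine ⟨h1, ?_⟩
  intro j hj hP
  rcases Nat.lt_or_ge i j with hij | hij
  · have : j = i + 1 := by omega
    subst this
    left
    obtain ⟨a', g1, g2, g3⟩ := hR b hb hb'
    have hL : 0 ≤ L (i + 1) := le_trans (Int.natCast_nonneg _) (L_ge (i + 1))
    refine ⟨a', g1, g2, ?_, g3⟩
    rw [abs_le]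
    constructor <;> linarith
  · exact h2 j hij hP

lemma Rows.mono_glue_left {l : ℤ} {P Q : ℤ → ℤ → Bool} {x0 x x1 y0 y1 : ℤ} (h1 : x ≤ x1)
    (hP : Rows l P x0 x y0 y1) :
    Rows l (fun a b => if a < x then P a b else Q a b) x0 x1 y0 y1 := by
  intro b hb hb'
  obtain ⟨a', g1, g2, g3⟩ := hP b hb hb'
  refine ⟨a', g1, by linarith, ?_⟩
  intro c hc hc'
  have : c < x := by linarith
  simp [this, g3 c hc hc']

lemma Rows.mono_glue_right {l : ℤ} {P Q : ℤ → ℤ → Bool} {x0 x x1 y0 y1 : ℤ} (h0 : x0 ≤ x)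
    (hQ : Rows l Q x x1 y0 y1) :
    Rows l (fun a b => if a < x then P a b else Q a b) x0 x1 y0 y1 := by
  intro b hb hb'
  obtain ⟨a', g1, g2, g3⟩ := hQ b hb hb'
  refine ⟨a', by linarith, g2, ?_⟩
  intro c hc hc'
  have : ¬ c < x := by push Not; linarith
  simp [this, g3 c hc hc']

lemma S_succ (i : ℕ) : S (i + 1) = 2 * (2 * S i * L (i + 1)) + 2 * S i := by
  simp only [S, L]; ring

/-- Induction step for bounded widths. -/
lemma claim_succ_aux {i : ℕ} (h : ClaimV i) (x0 x1 y0 y1 n : ℤ) (hx : x0 + S (i + 1) ≤ x1)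
    (hx' : x1 ≤ x0 + 2 * S (i + 1)) (hy : y0 + S (i + 1) ≤ y1) (hn : x0 ≤ n) (hn' : n < x1) :
    ∃ P : ℤ → ℤ → Bool, (∀ b, y0 ≤ b → b < y1 → P n b = false) ∧ Good (i + 1) P x0 x1 y0 y1 := by
  have hS := S_ge_two i
  have hl : S i ≤ L (i + 1) := by
    simp only [L]; have := Int.natCast_nonneg i; linarith
  have hW : 0 ≤ 2 * S i * L (i + 1) := by
    have : 0 ≤ L (i + 1) := by linarith
    positivity
  have hSS := S_succ i
  have hy2 : y0 + S i ≤ y1 := by linarith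
  set W := 2 * S i * L (i + 1) with hWdef
  by_cases hc : 2 * (n - x0) < x1 - x0
  · -- the column lies in the left half
    obtain ⟨P, hP0, hP⟩ := h x0 (x1 - W) y0 y1 n (by linarith) hy2 hn (by linarith)
    obtain ⟨Q, hQ, hQR⟩ := tower' h hl (x1 - W) y0 y1 hy2
    rw [← hWdef, sub_add_cancel] at hQ hQR
    refine ⟨fun a b => if a < x1 - W then P a b else Q a b, ?_, ?_⟩
    · intro b hb hb'
      have : n < x1 - W := by linarith
      simp [this, hP0 b hb hb']
    · exact (Good.glueX (by linarith) (by linarith) hP hQ).succ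
        (Rows.mono_glue_right (by linarith) hQR) hx'
  · push Not at hc
    obtain ⟨P, hP0, hP⟩ := h (x0 + W) x1 y0 y1 n (by linarith) hy2 (by linarith) hn'
    obtain ⟨Q, hQ, hQR⟩ := tower' h hl x0 y0 y1 hy2
    rw [← hWdef] at hQ hQR
    refine ⟨fun a b => if a < x0 + W then Q a b else P a b, ?_, ?_⟩
    · intro b hb hb'
      have : ¬ n < x0 + W := by push Not; linarith
      simp [this, hP0 b hb hb']
    · exact (Good.glueX (by linarith) (by linarith) hQ hP).succ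
        (Rows.mono_glue_left (by linarith) hQR) hx'

lemma claim_succ {i : ℕ} (h : ClaimV i) : ClaimV (i + 1) := by
  have hS := S_ge_two (i + 1)
  have main : ∀ (N : ℕ) (x0 x1 y0 y1 n : ℤ), x0 + S (i + 1) ≤ x1 → y0 + S (i + 1) ≤ y1 →
      x0 ≤ n → n < x1 → x1 ≤ x0 + (N + 2) * S (i + 1) →
      ∃ P : ℤ → ℤ → Bool, (∀ b, y0 ≤ b → b < y1 → P n b = false) ∧
        Good (i + 1) P x0 x1 y0 y1 := by
    intro N
    induction N with
    | zero =>
      intro x0 x1 y0 y1 n hx hy hn hn' hN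
      exact claim_succ_aux h x0 x1 y0 y1 n hx (by push_cast at hN; linarith) hy hn hn'
    | succ N ih =>
      intro x0 x1 y0 y1 n hx hy hn hn' hN
      by_cases hc : x1 ≤ x0 + 2 * S (i + 1)
      · exact claim_succ_aux h x0 x1 y0 y1 n hx hc hy hn hn'
      · push Not at hc
        by_cases hn2 : n < x0 + S (i + 1)
        · obtain ⟨P, hP0, hP⟩ := claim_succ_aux h x0 (x0 + S (i + 1)) y0 y1 n le_rfl
            (by linarith) hy hn hn2
          obtain ⟨Q, hQ0, hQ⟩ := ih (x0 + S (i + 1)) x1 y0 y1 (x0 + S (i + 1)) (by linarith) hy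
            le_rfl (by linarith) (by push_cast at hN; linarith)
          refine ⟨fun a b => if a < x0 + S (i + 1) then P a b else Q a b, ?_,
            Good.glueX (by linarith) (by linarith) hP hQ⟩
          intro b hb hb'
          simp [hn2, hP0 b hb hb']
        · obtain ⟨P, hP0, hP⟩ := claim_succ_aux h x0 (x0 + S (i + 1)) y0 y1 x0 le_rfl
            (by linarith) hy le_rfl (by linarith)
          obtain ⟨Q, hQ0, hQ⟩ := ih (x0 + S (i + 1)) x1 y0 y1 n (by linarith) hy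
            (by linarith) hn' (by push_cast at hN; linarith)
          refine ⟨fun a b => if a < x0 + S (i + 1) then P a b else Q a b, ?_,
            Good.glueX (by linarith) (by linarith) hP hQ⟩
          intro b hb hb'
          simp [hn2, hQ0 b hb hb']
  intro x0 x1 y0 y1 n hx hy hn hn'
  refine main (x1 - x0).toNat x0 x1 y0 y1 n hx hy hn hn' ?_
  have h1 : ((x1 - x0).toNat : ℤ) = x1 - x0 := Int.toNat_of_nonneg (by linarith)
  rw [h1]
  nlinarith

lemma claim (i : ℕ) : ClaimV i := by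
  induction i with
  | zero => exact claim_zero
  | succ i ih => exact claim_succ ih

end Pool.Agent.Helper43.Snoha
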