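import Mathlib
import Pool.Agent.Helper43.Snoha

set_option autoImplicit false
open Filter Topology TopologicalSpace

namespace Pool.Agent.Helper43.Snoha

/-- Configurations on the plane. -/
abbrev Conf : Type := ℤ × ℤ → Bool

/-- Near `(a,b)` there is a one. -/
def PA (a b : ℤ) (x : Conf) : Prop :=
  ∃ a' ∈ Set.Icc (a - 1) (a + 1), ∃ b' ∈ Set.Icc (b - 1) (b + 1), x (a', b') = true

/-- If there is a one at `(a,b)` then there is a run of `L j` zeros in its row or column. -/
def PB (j : ℕ) (a b : ℤ) (x : Conf) : Prop :=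
  x (a, b) = false ∨
  (∃ a' ∈ Set.Icc (a - 2 * S j) (a + 2 * S j), ∀ c, a' ≤ c → c < a' + L j → x (c, b) = false) ∨
  (∃ b' ∈ Set.Icc (b - 2 * S j) (b + 2 * S j), ∀ c, b' ≤ c → c < b' + L j → x (a, c) = false)

lemma isClosed_val (p : ℤ × ℤ) (v : Bool) : IsClosed {x : Conf | x p = v} :=
  isClosed_eq (continuous_apply p) continuous_const

lemma isClosed_PA (a b : ℤ) : IsClosed {x : Conf | PA a b x} := by
  have : {x : Conf | PA a b x} = ⋃ a' ∈ Set.Icc (a - 1) (a + 1), ⋃ b' ∈ Set.Icc (b - 1) (b + 1),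
      {x : Conf | x (a', b') = true} := by
    ext x
    simp only [PA, Set.mem_iUnion, exists_prop]
    rfl
  rw [this]
  refine (Set.finite_Icc _ _).isClosed_biUnion fun a' _ => ?_
  exact (Set.finite_Icc _ _).isClosed_biUnion fun b' _ => isClosed_val _ _

lemma isClosed_PB (j : ℕ) (a b : ℤ) : IsClosed {x : Conf | PB j a b x} := by
  have : {x : Conf | PB j a b x} = {x : Conf | x (a, b) = false} ∪
      ((⋃ a' ∈ Set.Icc (a - 2 * S j) (a + 2 * S j), ⋂ c, ⋂ (_ : a' ≤ c), ⋂ (_ : c < a' + L j),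
        {x : Conf | x (c, b) = false}) ∪
       (⋃ b' ∈ Set.Icc (b - 2 * S j) (b + 2 * S j), ⋂ c, ⋂ (_ : b' ≤ c), ⋂ (_ : c < b' + L j),
        {x : Conf | x (a, c) = false})) := by
    ext x
    simp [PB]
  rw [this]
  refine (isClosed_val _ _).union (IsClosed.union ?_ ?_)
  · refine (Set.finite_Icc _ _).isClosed_biUnion fun a' _ => ?_
    exact isClosed_iInter fun c => isClosed_iInter fun _ => isClosed_iInter fun _ =>
      isClosed_val _ _
  · refine (Set.finite_Icc _ _).isClosed_biUnion fun a' _ => ?_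
    exact isClosed_iInter fun c => isClosed_iInter fun _ => isClosed_iInter fun _ =>
      isClosed_val _ _

/-- The closed set of configurations satisfying the conditions in a box, up to scale `N`. -/
def C (N : ℕ) : Set Conf :=
  {x | ∀ a b : ℤ, |a| ≤ N → |b| ≤ N → PA a b x ∧ ∀ j ≤ N, PB j a b x}

lemma isClosed_C (N : ℕ) : IsClosed (C N) := by
  have : C N = ⋂ (a : ℤ), ⋂ (b : ℤ), ⋂ (_ : |a| ≤ N), ⋂ (_ : |b| ≤ N),
      ({x : Conf | PA a b x} ∩ ⋂ (j : ℕ), ⋂ (_ : j ≤ N), {x : Conf | PB j a b x}) := by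
    ext x
    simp [C]
  rw [this]
  exact isClosed_iInter fun a => isClosed_iInter fun b => isClosed_iInter fun _ =>
    isClosed_iInter fun _ => (isClosed_PA a b).inter
      (isClosed_iInter fun j => isClosed_iInter fun _ => isClosed_PB j a b)

lemma C_nonempty (N : ℕ) : (C N).Nonempty := by
  have hS := S_ge_two N
  obtain ⟨P, -, hP⟩ := claim N (-(S N + N)) (S N + N) (-(S N + N)) (S N + N) 0
    (by have := Int.natCast_nonneg N; linarith) (by have := Int.natCast_nonneg N; linarith)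
    (by have := Int.natCast_nonneg N; linarith) (by have := Int.natCast_nonneg N; linarith)
  refine ⟨fun p => P p.1 p.2, ?_⟩
  intro a b ha hb
  rw [abs_le] at ha hb
  obtain ⟨⟨a', b', -, -, -, -, h5, h6, h7⟩, h8⟩ := hP a b (by linarith) (by linarith)
    (by linarith) (by linarith)
  rw [abs_le] at h5 h6
  refine ⟨⟨a', ⟨by linarith, by linarith⟩, b', ⟨by linarith, by linarith⟩, h7⟩, ?_⟩
  intro j hj
  by_cases hab : P a b = true
  · right
    rcases h8 j hj hab with ⟨c', g1, g2, g3, g4⟩ | ⟨c', g1, g2, g3, g4⟩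
    · left
      rw [abs_le] at g3
      exact ⟨c', ⟨by linarith, by linarith⟩, g4⟩
    · right
      rw [abs_le] at g3
      exact ⟨c', ⟨by linarith, by linarith⟩, g4⟩
  · left
    simpa using hab

/-- The space of the counterexample. -/
def XS : Set Conf := {x | ∀ a b : ℤ, PA a b x ∧ ∀ j : ℕ, PB j a b x}

lemma XS_eq : XS = ⋂ N, C N := by
  ext x
  simp only [XS, C, Set.mem_iInter]
  change (∀ a b : ℤ, PA a b x ∧ ∀ j : ℕ, PB j a b x) ↔
    ∀ N : ℕ, ∀ a b : ℤ, |a| ≤ N → |b| ≤ N → PA a b x ∧ ∀ j ≤ N, PB j a b x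
  constructor
  · intro h N a b _ _
    exact ⟨(h a b).1, fun j _ => (h a b).2 j⟩
  · intro h a b
    refine ⟨(h (a.natAbs + b.natAbs) a b ?_ ?_).1, fun j =>
      (h (a.natAbs + b.natAbs + j) a b ?_ ?_).2 j (by omega)⟩
    all_goals
      push_cast
      have := abs_nonneg a
      have := abs_nonneg b
      linarith

lemma isClosed_XS : IsClosed XS := by
  rw [XS_eq]; exact isClosed_iInter isClosed_C

lemma XS_nonempty : XS.Nonempty := by
  rw [XS_eq]
  refine IsCompact.nonempty_iInter_of_sequence_nonempty_isCompact_isClosed C ?_ C_nonempty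
    (isClosed_C 0).isCompact isClosed_C
  intro N x hx a b ha hb
  obtain ⟨h1, h2⟩ := hx a b (by push_cast; linarith) (by push_cast; linarith)
  exact ⟨h1, fun j hj => h2 j (by omega)⟩

/-- Translation of configurations. -/
def tr (s t : ℤ) (x : Conf) : Conf := fun p => x (p.1 + s, p.2 + t)

lemma tr_mem {x : Conf} (hx : x ∈ XS) (s t : ℤ) : tr s t x ∈ XS := by
  intro a b
  obtain ⟨h1, h2⟩ := hx (a + s) (b + t)
  constructor
  · obtain ⟨a', ha', b', hb', h⟩ := h1
    refine ⟨a' - s, ⟨by linarith [ha'.1], by linarith [ha'.2]⟩, b' - t,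
      ⟨by linarith [hb'.1], by linarith [hb'.2]⟩, ?_⟩
    simpa [tr] using h
  · intro j
    rcases h2 j with h | ⟨a', ha', h⟩ | ⟨b', hb', h⟩
    · left; simpa [tr] using h
    · right; left
      refine ⟨a' - s, ⟨by linarith [ha'.1], by linarith [ha'.2]⟩, ?_⟩
      intro c hc hc'
      exact h (c + s) (by linarith) (by linarith)
    · right; right
      refine ⟨b' - t, ⟨by linarith [hb'.1], by linarith [hb'.2]⟩, ?_⟩
      intro c hc hc'
      exact h (c + t) (by linarith) (by linarith)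

lemma continuous_tr (s t : ℤ) : Continuous (tr s t) :=
  continuous_pi fun p => continuous_apply (p.1 + s, p.2 + t)

/-- A recurrent sequence in which ones are forward syndetic has no long zero run. -/
lemma no_run {s : ℤ → Bool} {N : ℕ}
    (h1 : ∀ m : ℕ, ∃ k : ℕ, m ≤ k ∧ k ≤ m + N ∧ s k = true)
    (h2 : ∀ M : ℕ, ∃ k : ℕ, M ≤ k ∧ ∀ i : ℤ, |i| ≤ M → s (i + k) = s i)
    (c l : ℤ) (hl : N < l) (hc : ∀ i, c ≤ i → i < c + l → s i = false) : False := by
  obtain ⟨k, hk, hk'⟩ := h2 (c.natAbs + l.natAbs)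
  push_cast at hk hk'
  have hck : 0 ≤ c + k := by
    have h3 : (|c| : ℤ) + |l| ≤ k := by
      have : ((c.natAbs + l.natAbs : ℕ) : ℤ) ≤ (k : ℤ) := by exact_mod_cast hk
      push_cast at this
      exact this
    have := neg_abs_le c
    have := abs_nonneg l
    linarith
  obtain ⟨k', h3, h4, h5⟩ := h1 (c + k).toNat
  have h6 : ((c + k).toNat : ℤ) = c + k := Int.toNat_of_nonneg hck
  have h7 : c + k ≤ k' := by rw [← h6]; exact_mod_cast h3
  have h8 : (k' : ℤ) ≤ c + k + N := by rw [← h6]; exact_mod_cast h4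
  have h9 : s ((k' : ℤ) - k) = false := hc _ (by linarith) (by linarith)
  have h10 := hk' ((k' : ℤ) - k) ?_
  · rw [sub_add_cancel, h5, h9] at h10
    exact Bool.noConfusion h10
  · have hN : (0 : ℤ) ≤ N := Int.natCast_nonneg N
    have h11 : |c| + l ≤ |c| + |l| := by linarith [le_abs_self l]
    rw [abs_le]
    constructor
    · linarith [neg_abs_le c, abs_nonneg l]
    · linarith [le_abs_self c]

/-- The counterexample. -/
theorem counterexample :
    ∃ (X : Type) (_ : TopologicalSpace X) (_ : CompactSpace X) (_ : MetrizableSpace X)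
      (_ : Nonempty X) (f g : X → X), Continuous f ∧ Continuous g ∧ f ∘ g = g ∘ f ∧
      ¬ ∃ x : X,
        (∀ U ∈ 𝓝 x, ∃ N : ℕ, ∀ m : ℕ, ∃ k : ℕ, m ≤ k ∧ k ≤ m + N ∧ f^[k] x ∈ U) ∧
        (∀ U ∈ 𝓝 x, ∃ N : ℕ, ∀ m : ℕ, ∃ k : ℕ, m ≤ k ∧ k ≤ m + N ∧ g^[k] x ∈ U) := by
  let f : XS → XS := fun x => ⟨tr 1 0 x.1, tr_mem x.2 1 0⟩
  let g : XS → XS := fun x => ⟨tr 0 1 x.1, tr_mem x.2 0 1⟩
  have hf : ∀ (k : ℕ) (x : XS) (p : ℤ × ℤ), (f^[k] x).1 p = x.1 (p.1 + k, p.2) := by
    intro k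
    induction k with
    | zero => intro x p; simp
    | succ k ih =>
      intro x p
      rw [Function.iterate_succ_apply, ih]
      simp only [f, tr]
      have h1 : p.1 + (k : ℤ) + 1 = p.1 + ((k + 1 : ℕ) : ℤ) := by push_cast; ring
      rw [h1, add_zero]
  have hg : ∀ (k : ℕ) (x : XS) (p : ℤ × ℤ), (g^[k] x).1 p = x.1 (p.1, p.2 + k) := by
    intro k
    induction k with
    | zero => intro x p; simp
    | succ k ih =>
      intro x p
      rw [Function.iterate_succ_apply, ih]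
      simp only [g, tr]
      have h1 : p.2 + (k : ℤ) + 1 = p.2 + ((k + 1 : ℕ) : ℤ) := by push_cast; ring
      rw [h1, add_zero]
  refine ⟨XS, inferInstance, isCompact_iff_compactSpace.mp isClosed_XS.isCompact, inferInstance,
    XS_nonempty.to_subtype, f, g, ?_, ?_, ?_, ?_⟩
  · exact ((continuous_tr 1 0).comp continuous_subtype_val).subtype_mk _
  · exact ((continuous_tr 0 1).comp continuous_subtype_val).subtype_mk _
  · funext x
    apply Subtype.ext
    funext p
    simp [f, g, tr]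
  · rintro ⟨y, hyf, hyg⟩
    obtain ⟨⟨a, ha, b, hb, hab⟩, -⟩ := y.2 1 1
    have hcl : ∀ (p : ℤ × ℤ) (v : Bool), IsOpen {w : XS | w.1 p = v} := by
      intro p v
      have hc : Continuous (fun w : XS => w.1 p) :=
        (continuous_apply p).comp continuous_subtype_val
      exact (isOpen_discrete ({v} : Set Bool)).preimage hc
    -- the neighbourhood of y given by the one at (a,b)
    have hU : {w : XS | w.1 (a, b) = true} ∈ 𝓝 y := (hcl _ _).mem_nhds hab
    obtain ⟨N1, hN1⟩ := hyf _ hU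
    obtain ⟨N2, hN2⟩ := hyg _ hU
    have hUM : ∀ M : ℕ, {w : XS | ∀ i ∈ Set.Icc (-(M : ℤ)) M, w.1 (a + i, b) = y.1 (a + i, b)} ∈
        𝓝 y := by
      intro M
      have : {w : XS | ∀ i ∈ Set.Icc (-(M : ℤ)) M, w.1 (a + i, b) = y.1 (a + i, b)} =
          ⋂ i ∈ Set.Icc (-(M : ℤ)) M, {w : XS | w.1 (a + i, b) = y.1 (a + i, b)} := by
        ext w; simp
      rw [this, Filter.biInter_mem (Set.finite_Icc _ _)]
      intro i _
      exact (hcl _ _).mem_nhds rfl
    have hUM' : ∀ M : ℕ, {w : XS | ∀ i ∈ Set.Icc (-(M : ℤ)) M, w.1 (a, b + i) = y.1 (a, b + i)} ∈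
        𝓝 y := by
      intro M
      have : {w : XS | ∀ i ∈ Set.Icc (-(M : ℤ)) M, w.1 (a, b + i) = y.1 (a, b + i)} =
          ⋂ i ∈ Set.Icc (-(M : ℤ)) M, {w : XS | w.1 (a, b + i) = y.1 (a, b + i)} := by
        ext w; simp
      rw [this, Filter.biInter_mem (Set.finite_Icc _ _)]
      intro i _
      exact (hcl _ _).mem_nhds rfl
    have hj : ((N1 + N2 + 1 : ℕ) : ℤ) ≤ L (N1 + N2 + 1) := L_ge _
    push_cast at hj
    have hN1' : (0 : ℤ) ≤ N1 := Int.natCast_nonneg _
    have hN2' : (0 : ℤ) ≤ N2 := Int.natCast_nonneg _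
    rcases (y.2 a b).2 (N1 + N2 + 1) with h | ⟨a', -, h⟩ | ⟨b', -, h⟩
    · rw [hab] at h; exact Bool.noConfusion h
    · refine no_run (s := fun i => y.1 (a + i, b)) (N := N1) ?_ ?_ (a' - a) (L (N1 + N2 + 1))
        (by linarith) ?_
      · intro m
        obtain ⟨k, h1, h2, h3⟩ := hN1 m
        refine ⟨k, h1, h2, ?_⟩
        have h3' : (f^[k] y).1 (a, b) = true := h3
        rw [hf] at h3'
        exact h3'
      · intro M
        obtain ⟨N, hN⟩ := hyf _ (hUM M)
        obtain ⟨k, h1, -, h3⟩ := hN M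
        refine ⟨k, h1, ?_⟩
        intro i hi
        have h4 : (f^[k] y).1 (a + i, b) = y.1 (a + i, b) := h3 i (abs_le.mp hi)
        rw [hf] at h4
        simpa [add_assoc] using h4
      · intro i hi hi'
        exact h (a + i) (by linarith) (by linarith)
    · refine no_run (s := fun i => y.1 (a, b + i)) (N := N2) ?_ ?_ (b' - b) (L (N1 + N2 + 1))
        (by linarith) ?_
      · intro m
        obtain ⟨k, h1, h2, h3⟩ := hN2 m
        refine ⟨k, h1, h2, ?_⟩
        have h3' : (g^[k] y).1 (a, b) = true := h3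
        rw [hg] at h3'
        exact h3'
      · intro M
        obtain ⟨N, hN⟩ := hyg _ (hUM' M)
        obtain ⟨k, h1, -, h3⟩ := hN M
        refine ⟨k, h1, ?_⟩
        intro i hi
        have h4 : (g^[k] y).1 (a, b + i) = y.1 (a, b + i) := h3 i (abs_le.mp hi)
        rw [hg] at h4
        simpa [add_assoc] using h4
      · intro i hi hi'
        exact h (b + i) (by linarith) (by linarith)

end Pool.Agent.Helper43.Snoha
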