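import Mathlib
import Pool.Agent.Helper43.SnohaPlane

set_option autoImplicit false
open Filter Topology TopologicalSpace

namespace Pool.Agent.Helper43.Snoha

/-- The horizontal shift as a homeomorphism of the subshift. -/
def hF : XS ≃ₜ XS where
  toFun x := ⟨tr 1 0 x.1, tr_mem x.2 1 0⟩
  invFun x := ⟨tr (-1) 0 x.1, tr_mem x.2 (-1) 0⟩
  left_inv x := by
    apply Subtype.ext
    funext p
    simp [tr]
  right_inv x := by
    apply Subtype.ext
    funext p
    simp [tr]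
  continuous_toFun := ((continuous_tr 1 0).comp continuous_subtype_val).subtype_mk _
  continuous_invFun := ((continuous_tr (-1) 0).comp continuous_subtype_val).subtype_mk _

/-- The vertical shift as a homeomorphism of the subshift. -/
def hG : XS ≃ₜ XS where
  toFun x := ⟨tr 0 1 x.1, tr_mem x.2 0 1⟩
  invFun x := ⟨tr 0 (-1) x.1, tr_mem x.2 0 (-1)⟩
  left_inv x := by
    apply Subtype.ext
    funext p
    simp [tr]
  right_inv x := by
    apply Subtype.ext
    funext p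
    simp [tr]
  continuous_toFun := ((continuous_tr 0 1).comp continuous_subtype_val).subtype_mk _
  continuous_invFun := ((continuous_tr 0 (-1)).comp continuous_subtype_val).subtype_mk _

theorem no_common (y : XS)
    (hyf : ∀ U ∈ 𝓝 y, ∃ N : ℕ, ∀ m : ℕ, ∃ k : ℕ, m ≤ k ∧ k ≤ m + N ∧ hF^[k] y ∈ U)
    (hyg : ∀ U ∈ 𝓝 y, ∃ N : ℕ, ∀ m : ℕ, ∃ k : ℕ, m ≤ k ∧ k ≤ m + N ∧ hG^[k] y ∈ U) : False := by
  let f : XS → XS := hF
  let g : XS → XS := hG
  have hf : ∀ (k : ℕ) (x : XS) (p : ℤ × ℤ), (f^[k] x).1 p = x.1 (p.1 + k, p.2) := by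
    intro k
    induction k with
    | zero => intro x p; simp
    | succ k ih =>
      intro x p
      rw [Function.iterate_succ_apply, ih]
      change x.1 (p.1 + (k : ℤ) + 1, p.2 + 0) = _
      have h1 : p.1 + (k : ℤ) + 1 = p.1 + ((k + 1 : ℕ) : ℤ) := by push_cast; ring
      rw [h1, add_zero]
  have hg : ∀ (k : ℕ) (x : XS) (p : ℤ × ℤ), (g^[k] x).1 p = x.1 (p.1, p.2 + k) := by
    intro k
    induction k with
    | zero => intro x p; simp
    | succ k ih =>
      intro x p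
      rw [Function.iterate_succ_apply, ih]
      change x.1 (p.1 + 0, p.2 + (k : ℤ) + 1) = _
      have h1 : p.2 + (k : ℤ) + 1 = p.2 + ((k + 1 : ℕ) : ℤ) := by push_cast; ring
      rw [h1, add_zero]
  obtain ⟨⟨a, ha, b, hb, hab⟩, -⟩ := y.2 1 1
  have hcl : ∀ (p : ℤ × ℤ) (v : Bool), IsOpen {w : XS | w.1 p = v} := by
    intro p v
    have hc : Continuous (fun w : XS => w.1 p) :=
      (continuous_apply p).comp continuous_subtype_val
    exact (isOpen_discrete ({v} : Set Bool)).preimage hc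
  -- the neighbourhood of y given by the one at (a,b)
  have hU : {w : XS | w.1 (a, b) = true} ∈ 𝓝 y := (hcl _ _).mem_nhds hab
  obtain ⟨N1, hN1⟩ := hyf _ hU
  obtain ⟨N2, hN2⟩ := hyg _ hU
  have hUM : ∀ M : ℕ, {w : XS | ∀ i ∈ Set.Icc (-(M : ℤ)) M, w.1 (a + i, b) = y.1 (a + i, b)} ∈
      𝓝 y := by
    intro M
    have : {w : XS | ∀ i ∈ Set.Icc (-(M : ℤ)) M, w.1 (a + i, b) = y.1 (a + i, b)} =
        ⋂ i ∈ Set.Icc (-(M : ℤ)) M, {w : XS | w.1 (a + i, b) = y.1 (a + i, b)} := by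
      ext w; simp
    rw [this, Filter.biInter_mem (Set.finite_Icc _ _)]
    intro i _
    exact (hcl _ _).mem_nhds rfl
  have hUM' : ∀ M : ℕ, {w : XS | ∀ i ∈ Set.Icc (-(M : ℤ)) M, w.1 (a, b + i) = y.1 (a, b + i)} ∈
      𝓝 y := by
    intro M
    have : {w : XS | ∀ i ∈ Set.Icc (-(M : ℤ)) M, w.1 (a, b + i) = y.1 (a, b + i)} =
        ⋂ i ∈ Set.Icc (-(M : ℤ)) M, {w : XS | w.1 (a, b + i) = y.1 (a, b + i)} := by
      ext w; simp
    rw [this, Filter.biInter_mem (Set.finite_Icc _ _)]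
    intro i _
    exact (hcl _ _).mem_nhds rfl
  have hj : ((N1 + N2 + 1 : ℕ) : ℤ) ≤ L (N1 + N2 + 1) := L_ge _
  push_cast at hj
  have hN1' : (0 : ℤ) ≤ N1 := Int.natCast_nonneg _
  have hN2' : (0 : ℤ) ≤ N2 := Int.natCast_nonneg _
  rcases (y.2 a b).2 (N1 + N2 + 1) with h | ⟨a', -, h⟩ | ⟨b', -, h⟩
  · rw [hab] at h; exact Bool.noConfusion h
  · refine no_run (s := fun i => y.1 (a + i, b)) (N := N1) ?_ ?_ (a' - a) (L (N1 + N2 + 1))
      (by linarith) ?_
    · intro m
      obtain ⟨k, h1, h2, h3⟩ := hN1 m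
      refine ⟨k, h1, h2, ?_⟩
      have h3' : (f^[k] y).1 (a, b) = true := h3
      rw [hf] at h3'
      exact h3'
    · intro M
      obtain ⟨N, hN⟩ := hyf _ (hUM M)
      obtain ⟨k, h1, -, h3⟩ := hN M
      refine ⟨k, h1, ?_⟩
      intro i hi
      have h4 : (f^[k] y).1 (a + i, b) = y.1 (a + i, b) := h3 i (abs_le.mp hi)
      rw [hf] at h4
      simpa [add_assoc] using h4
    · intro i hi hi'
      exact h (a + i) (by linarith) (by linarith)
  · refine no_run (s := fun i => y.1 (a, b + i)) (N := N2) ?_ ?_ (b' - b) (L (N1 + N2 + 1))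
      (by linarith) ?_
    · intro m
      obtain ⟨k, h1, h2, h3⟩ := hN2 m
      refine ⟨k, h1, h2, ?_⟩
      have h3' : (g^[k] y).1 (a, b) = true := h3
      rw [hg] at h3'
      exact h3'
    · intro M
      obtain ⟨N, hN⟩ := hyg _ (hUM' M)
      obtain ⟨k, h1, -, h3⟩ := hN M
      refine ⟨k, h1, ?_⟩
      intro i hi
      have h4 : (g^[k] y).1 (a, b + i) = y.1 (a, b + i) := h3 i (abs_le.mp hi)
      rw [hg] at h4
      simpa [add_assoc] using h4
    · intro i hi hi'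
      exact h (b + i) (by linarith) (by linarith)


end Pool.Agent.Helper43.Snoha
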